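import Pool.Agent.H44.SR.HDER
import Pool.Agent.H70.PL.F1p
import Pool.Agent.H70.PL.Ncm

/-!
SHARP RATE, pieces 3 and 4, module BASE: a perturbed map at the natural scale of the static map.

`a = nm (F u)`, `a0 = nm (F0 u)`, `e = F0 u / a0` (a unit vector with `pr (F0 u) e = a0`, `wd e (F0 u) = 0`).
`bs_nm`: `f3` (H70/PL/F1p) and `τ / (k1 t) ≤ kap / A ≤ 1/1000` (`A τ ≤ kap k1 t`, `A kap ≤ k2 qn ≤ 1`; `A ≥ 100`, `kap ≤ 1/100`, so
`τ / (k1 t) ≤ 10⁻⁴`): `|a0 - a| ≤ 10⁻⁴ a`.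
`bs_sch`: `nm (F0 v - F0 u) ≤ nm (F v - F u) + 2 τ w ≤ a/2 + 2 τ w ≤ 0.52 a0` on the ball of radius `S`, then the Schwarz lemma `schP`.
`bs_der`: Cauchy (`cauD`, radius `S/4` around `v`, constant `F0 u`): `nm (F0' v) ≤ 0.53 a0 / (S/4) ≤ 3 a0 / S`.
`bs_pr`: `pr (F0 v) e = a0 + pr (F0 v - F0 u) e`.
-/

set_option autoImplicit false

namespace Pool.Agent.H44.SR

open Pool.H70.SF Pool.Agent.H70.PL

/-- `e` is the direction of `F0 u` -/
structure Dir (F0 : ℂ → ℂ × ℂ) (u : ℂ) (e : ℂ × ℂ) : Prop where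
  one : nm e = 1
  prr : pr (F0 u) e = (nm (F0 u) : ℂ)
  wdd : wd e (F0 u) = 0

theorem dir_ex {F0 : ℂ → ℂ × ℂ} {u : ℂ} (h : 0 < nm (F0 u)) : ∃ e, Dir F0 u e := by
  obtain ⟨e, he, hpr⟩ := nm_dual (F0 u)
  refine ⟨e, he, hpr, ?_⟩
  have h1 := lag (F0 u) e
  rw [he, hpr, Complex.norm_real, Real.norm_of_nonneg (nm_nonneg _)] at h1
  have h2 : ‖wd (F0 u) e‖ ^ 2 = 0 := by linarith
  have h3 : wd (F0 u) e = 0 := norm_eq_zero.1 (pow_eq_zero_iff (two_ne_zero) |>.1 h2)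
  have h4 : wd e (F0 u) = -wd (F0 u) e := by
    simp only [wd]
    ring
  rw [h4, h3, neg_zero]

theorem bs_nm (M A L t τ q q1 qn k1 k2 kap S0 w : ℝ) (m : ℕ) (hM : 1 ≤ M) (hA : 100 * M ≤ A)
    (hw : 0 < w) (hK : Kon A L t τ q q1 qn k1 k2 kap S0 m) (F F0 : ℂ → ℂ × ℂ)
    (hF : Sta M w t k1 k2 qn F) (hP : Per τ w F F0) (u : ℂ) (hu : ‖u‖ ≤ 2) :
    0 < nm (F u) ∧ 0 < nm (F0 u) ∧ 999 / 1000 * nm (F u) ≤ nm (F0 u) ∧
      nm (F0 u) ≤ 1001 / 1000 * nm (F u) ∧ τ * w ≤ kap / A * nm (F u) ∧ τ * w ≤ nm (F0 u) / 1000 := by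
  have ht : 0 < t := (Real.exp_pos _).trans_le hK.tL
  have hk1 : 0 < k1 := (Real.exp_pos _).trans_le hK.k1L
  have hk2 : 0 < k2 := (Real.exp_pos _).trans_le hK.k2L
  have hkap : 0 < kap := (Real.exp_pos _).trans_le hK.kapL
  have hA100 : 100 ≤ A := by linarith
  have hA0 : 0 < A := by linarith
  have hlow := hF.low u hu
  have hpos : 0 < k1 * t * w := by positivity
  have ha : 0 < nm (F u) := hpos.trans_le hlow
  have hnear := hP.near u (by linarith)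
  have hkap4 : kap ≤ 1 / 400 := by
    have h1 := hK.kapS
    have h2 : k2 * S0 ≤ 1 / 4 := by
      have h3 := hK.k2b
      have h4 := hK.S0b
      have h5 := hK.S0p
      nlinarith
    nlinarith
  have hτ : τ * w ≤ kap / A * nm (F u) := by
    have h1 : τ ≤ kap / A * (k1 * t) := by
      rw [div_mul_eq_mul_div, le_div_iff₀ hA0]
      have := hK.τk
      linarith
    have h2 : τ * w ≤ kap / A * (k1 * t) * w := mul_le_mul_of_nonneg_right h1 hw.le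
    have h3 : kap / A * (k1 * t * w) ≤ kap / A * nm (F u) :=
      mul_le_mul_of_nonneg_left hlow (by positivity)
    linarith
  have hkA : kap / A ≤ 1 / 40000 := by
    rw [div_le_iff₀ hA0]
    linarith
  have hτ2 : τ * w ≤ 1 / 40000 * nm (F u) :=
    hτ.trans (mul_le_mul_of_nonneg_right hkA ha.le)
  have h5 := nm_rev (F0 u) (F u)
  have h6 := nm_rev (F u) (F0 u)
  rw [nm_sub_comm (F u) (F0 u)] at h6
  refine ⟨ha, by linarith, by linarith, by linarith, hτ, by linarith⟩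

/-- Schwarz at the natural scale for the perturbed map -/
theorem bs_sch (M A L t τ q q1 qn k1 k2 kap S0 w : ℝ) (m : ℕ) (hM : 1 ≤ M) (hA : 100 * M ≤ A)
    (hw : 0 < w) (hK : Kon A L t τ q q1 qn k1 k2 kap S0 m) (F F0 : ℂ → ℂ × ℂ)
    (hF : Sta M w t k1 k2 qn F) (hP : Per τ w F F0) (u : ℂ) (hu : ‖u‖ ≤ 1) (S : ℝ)
    (hS : Nsc F u S) (v : ℂ) (hv : ‖v - u‖ ≤ S) :
    nm (F0 v - F0 u) ≤ 53 / 100 * (‖v - u‖ / S) * nm (F0 u) := by
  obtain ⟨h1, h2, h3, h4, h5, h6⟩ := bs_nm M A L t τ q q1 qn k1 k2 kap S0 w m hM hA hw hK F F0 hF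
    hP u (by linarith)
  have hS0 := hS.1
  have hS1 := hS.2.1
  have hkA : kap / A ≤ 1 / 40000 := by
    have hkap : 0 < kap := (Real.exp_pos _).trans_le hK.kapL
    have hk2 : 0 < k2 := (Real.exp_pos _).trans_le hK.k2L
    have hA100 : 100 ≤ A := by linarith
    have hkap4 : kap ≤ 1 / 400 := by
      have h1 := hK.kapS
      have h2 : k2 * S0 ≤ 1 / 4 := by
        have h3 := hK.k2b
        have h4 := hK.S0b
        have h5 := hK.S0p
        nlinarith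
      nlinarith
    rw [div_le_iff₀ (by linarith)]
    linarith
  have h7 : τ * w ≤ 1 / 40000 * nm (F u) := h5.trans (mul_le_mul_of_nonneg_right hkA h1.le)
  have h8 : ∀ x, ‖x - u‖ ≤ S → nm (F0 x - F0 u) ≤ 53 / 100 * nm (F0 u) := by
    intro x hx
    have hx3 : ‖x‖ ≤ 3 := by
      have := norm_add_le (x - u) u
      rw [sub_add_cancel] at this
      linarith
    have h9 := hP.near x hx3
    have h10 := hP.near u (by linarith)
    have h11 := hS.2.2.1 x hx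
    have h12 := nm_tri (F0 x) (F x) (F0 u)
    have h13 := nm_tri (F x) (F u) (F0 u)
    rw [nm_sub_comm (F u) (F0 u)] at h13
    linarith
  have h14 := schP hP.dif u S (53 / 100 * nm (F0 u)) hS0 h8 v hv
  linarith

/-- derivative and Jacobian of the perturbed map -/
theorem bs_der (M A L t τ q q1 qn k1 k2 kap S0 w : ℝ) (m : ℕ) (hM : 1 ≤ M) (hA : 100 * M ≤ A)
    (hw : 0 < w) (hK : Kon A L t τ q q1 qn k1 k2 kap S0 m) (F F0 : ℂ → ℂ × ℂ)
    (hF : Sta M w t k1 k2 qn F) (hP : Per τ w F F0) (u : ℂ) (hu : ‖u‖ ≤ 1) (S : ℝ)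
    (hS : Nsc F u S) (v : ℂ) (hv : ‖v - u‖ ≤ 3 / 4 * S) :
    nm (deriv F0 v) ≤ 3 * nm (F0 u) / S ∧ ‖Jc F0 v‖ ≤ 5 * nm (F0 u) ^ 2 / S := by
  have hS0 := hS.1
  have hS1 := hS.2.1
  obtain ⟨h1, h2, h3, h4, h5, h6⟩ := bs_nm M A L t τ q q1 qn k1 k2 kap S0 w m hM hA hw hK F F0 hF
    hP u (by linarith)
  have hs := bs_sch M A L t τ q q1 qn k1 k2 kap S0 w m hM hA hw hK F F0 hF hP u hu S hS
  have h7 := cauD hP.dif (F0 u) v (S / 4) (53 / 100 * nm (F0 u)) (by linarith) fun x hx => by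
    have h8 : ‖x - u‖ ≤ S := by
      have h9 : x - u = (x - v) + (v - u) := by ring
      rw [h9]
      have := norm_add_le (x - v) (v - u)
      linarith
    refine (hs x h8).trans ?_
    have h10 : ‖x - u‖ / S ≤ 1 := (div_le_one hS0).2 h8
    nlinarith
  have e1 : 53 / 100 * nm (F0 u) / (S / 4) = 53 / 25 * (nm (F0 u) / S) := by
    field_simp
    ring
  have e2 : 3 * nm (F0 u) / S = 3 * (nm (F0 u) / S) := by ring
  have hpos : 0 < nm (F0 u) / S := div_pos h2 hS0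
  have h11 : nm (deriv F0 v) ≤ 3 * nm (F0 u) / S := by
    rw [e1] at h7
    rw [e2]
    linarith
  refine ⟨h11, ?_⟩
  have h12 : nm (F0 v) ≤ 3 / 2 * nm (F0 u) := by
    have h13 := nm_rev (F0 v) (F0 u)
    have h14 := hs v (by linarith)
    have h15 : ‖v - u‖ / S ≤ 3 / 4 := by
      rw [div_le_iff₀ hS0]
      exact hv
    nlinarith
  calc ‖Jc F0 v‖ ≤ nm (F0 v) * nm (deriv F0 v) := wd_le _ _
    _ ≤ (3 / 2 * nm (F0 u)) * (3 * nm (F0 u) / S) :=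
        mul_le_mul h12 h11 (nm_nonneg _) (by positivity)
    _ = 9 / 2 * (nm (F0 u) ^ 2 / S) := by ring
    _ ≤ 5 * (nm (F0 u) ^ 2 / S) := by
        have : 0 ≤ nm (F0 u) ^ 2 / S := by positivity
        linarith
    _ = 5 * nm (F0 u) ^ 2 / S := by ring

/-- the coordinate in the direction of `F0 u` -/
theorem bs_pr (M A L t τ q q1 qn k1 k2 kap S0 w : ℝ) (m : ℕ) (hM : 1 ≤ M) (hA : 100 * M ≤ A)
    (hw : 0 < w) (hK : Kon A L t τ q q1 qn k1 k2 kap S0 m) (F F0 : ℂ → ℂ × ℂ)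
    (hF : Sta M w t k1 k2 qn F) (hP : Per τ w F F0) (u : ℂ) (hu : ‖u‖ ≤ 1) (S : ℝ)
    (hS : Nsc F u S) (e : ℂ × ℂ) (he : Dir F0 u e) (v : ℂ) (hv : ‖v - u‖ ≤ S / 2) :
    ‖pr (F0 v) e - nm (F0 u)‖ ≤ 53 / 100 * (‖v - u‖ / S) * nm (F0 u) ∧
      ‖wd e (F0 v)‖ ≤ 53 / 100 * (‖v - u‖ / S) * nm (F0 u) ∧
      7 / 10 * nm (F0 u) ≤ ‖pr (F0 v) e‖ ∧ ‖pr (F0 v) e‖ ≤ 13 / 10 * nm (F0 u) ∧
      ‖pr (deriv F0 v) e‖ ≤ 5 / S * ‖pr (F0 v) e‖ := by
  have hS0 := hS.1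
  have hS1 := hS.2.1
  obtain ⟨h1, h2, h3, h4, h5, h6⟩ := bs_nm M A L t τ q q1 qn k1 k2 kap S0 w m hM hA hw hK F F0 hF
    hP u (by linarith)
  have hs := bs_sch M A L t τ q q1 qn k1 k2 kap S0 w m hM hA hw hK F F0 hF hP u hu S hS v
    (by linarith)
  have hd := (bs_der M A L t τ q q1 qn k1 k2 kap S0 w m hM hA hw hK F F0 hF hP u hu S hS v
    (by linarith)).1
  have h7 : ‖pr (F0 v) e - nm (F0 u)‖ ≤ 53 / 100 * (‖v - u‖ / S) * nm (F0 u) := by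
    rw [← he.prr, ← pr_sub]
    have := pr_le (F0 v - F0 u) e
    rw [he.one, mul_one] at this
    exact this.trans hs
  have h8 : ‖wd e (F0 v)‖ ≤ 53 / 100 * (‖v - u‖ / S) * nm (F0 u) := by
    have e1 : wd e (F0 v) = wd e (F0 v - F0 u) := by
      have h0 := he.wdd
      simp only [wd] at h0 ⊢
      simp only [Prod.fst_sub, Prod.snd_sub]
      linear_combination h0
    rw [e1]
    have := wd_le e (F0 v - F0 u)
    rw [he.one, one_mul] at this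
    exact this.trans hs
  have h9 : ‖v - u‖ / S ≤ 1 / 2 := by
    rw [div_le_iff₀ hS0]
    linarith
  have h10 : 53 / 100 * (‖v - u‖ / S) * nm (F0 u) ≤ 53 / 200 * nm (F0 u) := by
    refine mul_le_mul_of_nonneg_right ?_ h2.le
    linarith
  have h11 : ‖(nm (F0 u) : ℂ)‖ = nm (F0 u) := by
    rw [Complex.norm_real, Real.norm_of_nonneg (nm_nonneg _)]
  have h12 := norm_sub_norm_le (nm (F0 u) : ℂ) (pr (F0 v) e)
  rw [h11, norm_sub_rev] at h12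
  have h13 := norm_sub_norm_le (pr (F0 v) e) (nm (F0 u) : ℂ)
  rw [h11] at h13
  have h14 : 7 / 10 * nm (F0 u) ≤ ‖pr (F0 v) e‖ := by linarith
  refine ⟨h7, h8, h14, by linarith, ?_⟩
  have h15 := pr_le (deriv F0 v) e
  rw [he.one, mul_one] at h15
  refine h15.trans (hd.trans ?_)
  rw [div_mul_eq_mul_div]
  exact div_le_div_of_nonneg_right (by linarith) hS0.le

/-- a second perturbed map at distance `s w`: its coordinate differs little -/
theorem bs_two (M A L t τ q q1 qn k1 k2 kap S0 w : ℝ) (m : ℕ) (hM : 1 ≤ M) (hA : 100 * M ≤ A)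
    (hw : 0 < w) (hK : Kon A L t τ q q1 qn k1 k2 kap S0 m) (F F0 F1 : ℂ → ℂ × ℂ)
    (hF : Sta M w t k1 k2 qn F) (hP : Per τ w F F0) (u : ℂ) (hu : ‖u‖ ≤ 1) (S : ℝ)
    (hS : Nsc F u S) (e : ℂ × ℂ) (he : Dir F0 u e) (s : ℝ) (hsτ : s ≤ τ)
    (hY : ∀ v, ‖v‖ ≤ 3 → nm (F1 v - F0 v) ≤ s * w) (v : ℂ) (hv : ‖v - u‖ ≤ S / 2) :
    69 / 100 * nm (F0 u) ≤ ‖pr (F1 v) e‖ ∧ ‖pr (F1 v) e‖ ≤ 131 / 100 * nm (F0 u) ∧
      ‖hh e F1 v - hh e F0 v‖ ≤ 3 * (s * w / nm (F0 u)) := by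
  have hS0 := hS.1
  have hS1 := hS.2.1
  obtain ⟨h1, h2, h3, h4, h5, h6⟩ := bs_nm M A L t τ q q1 qn k1 k2 kap S0 w m hM hA hw hK F F0 hF
    hP u (by linarith)
  have hs := bs_sch M A L t τ q q1 qn k1 k2 kap S0 w m hM hA hw hK F F0 hF hP u hu S hS v
    (by linarith)
  obtain ⟨g1, g2, g3, g4, g5⟩ := bs_pr M A L t τ q q1 qn k1 k2 kap S0 w m hM hA hw hK F F0 hF hP u
    hu S hS e he v hv
  have h9 : ‖v - u‖ / S ≤ 1 / 2 := by
    rw [div_le_iff₀ hS0]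
    linarith
  have h10 : 53 / 100 * (‖v - u‖ / S) * nm (F0 u) ≤ 53 / 200 * nm (F0 u) := by
    refine mul_le_mul_of_nonneg_right ?_ h2.le
    linarith
  have hv3 : ‖v‖ ≤ 3 := by
    have := norm_add_le (v - u) u
    rw [sub_add_cancel] at this
    linarith
  have hY' := hY v hv3
  have hsw0 : 0 ≤ s * w := (nm_nonneg _).trans hY'
  have hsw : s * w ≤ nm (F0 u) / 1000 :=
    (mul_le_mul_of_nonneg_right hsτ hw.le).trans h6
  have h11 : ‖pr (F1 v) e - pr (F0 v) e‖ ≤ s * w := by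
    rw [← pr_sub]
    have := pr_le (F1 v - F0 v) e
    rw [he.one, mul_one] at this
    exact this.trans hY'
  have h12 := norm_sub_norm_le (pr (F0 v) e) (pr (F1 v) e)
  rw [norm_sub_rev] at h12
  have h13 := norm_sub_norm_le (pr (F1 v) e) (pr (F0 v) e)
  have h14 : 69 / 100 * nm (F0 u) ≤ ‖pr (F1 v) e‖ := by linarith
  refine ⟨h14, by linarith, ?_⟩
  have hne0 : pr (F0 v) e ≠ 0 := by
    intro h0
    rw [h0, norm_zero] at g3
    linarith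
  have hne1 : pr (F1 v) e ≠ 0 := by
    intro h0
    rw [h0, norm_zero] at h14
    linarith
  rw [hh_sub he.one hne0 hne1, norm_div, norm_mul]
  have h15 : ‖wd (F0 v) (F1 v)‖ ≤ 13 / 10 * nm (F0 u) * (s * w) := by
    have e1 : wd (F0 v) (F1 v) = wd (F0 v) (F1 v - F0 v) := by
      simp only [wd, Prod.fst_sub, Prod.snd_sub]
      ring
    rw [e1]
    refine (wd_le _ _).trans (mul_le_mul ?_ hY' (nm_nonneg _) (by positivity))
    have := nm_rev (F0 v) (F0 u)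
    linarith
  have h16 : 483 / 1000 * nm (F0 u) ^ 2 ≤ ‖pr (F0 v) e‖ * ‖pr (F1 v) e‖ := by
    calc 483 / 1000 * nm (F0 u) ^ 2 = (7 / 10 * nm (F0 u)) * (69 / 100 * nm (F0 u)) := by ring
      _ ≤ _ := mul_le_mul g3 h14 (by positivity) (norm_nonneg _)
  have h17 : 0 < 483 / 1000 * nm (F0 u) ^ 2 := by positivity
  calc ‖wd (F0 v) (F1 v)‖ / (‖pr (F0 v) e‖ * ‖pr (F1 v) e‖) ≤
        (13 / 10 * nm (F0 u) * (s * w)) / (483 / 1000 * nm (F0 u) ^ 2) :=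
        div_le_div₀ (by positivity) h15 h17 h16
    _ = 1300 / 483 * (s * w / nm (F0 u)) := by
        field_simp
        ring
    _ ≤ 3 * (s * w / nm (F0 u)) := by
        have : 0 ≤ s * w / nm (F0 u) := div_nonneg hsw0 h2.le
        linarith

end Pool.Agent.H44.SR
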