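import Pool.Agent.H44.SR.ZERO
import Pool.Agent.H70.PL.F2
import Pool.Agent.H44.DN.SPK

/-!
SHARP RATE, piece 3, module CIRC: choice of the circle and lower bounds on it (step (i)).

`circ_ex` (Mathlib only): the intervals of half length `ρ / (8 n)` around the numbers `‖z - u‖`, `z ∈ Z`, `card Z ≤ n`, have total length at most `ρ / 4`, so
they do not cover `[ρ/2, ρ]` (volume, or induction).
`circ`: `Z` = zeros of `Jc F` (static) and of `wd (F0 ·) e` in `‖z‖ ≤ 5/4`; `f2_J` (for `F1 = F`, `per_self`), `f2_e`: card `≤ 600 M² L ≤ n` real bound;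
take `n = ⌊600 M² L⌋ + 1 ≤ 601 M² L`; `η S / (8 n) ≥ 8 q S` because `η ≥ 40000 M² L q ≥ 64 · 601 M² L q`.
`circ_low`: for `‖u' - u‖ = ρ'`, `‖v - u'‖ ≤ 4 q S`: `nsc_ex` at `v`, `nsc_cmp` (`‖v - u‖ ≤ η S + 4 q S ≤ S/8`): `S/4 ≤ S_v ≤ 4 S`; no zero of `Jc F` in
`‖z - v‖ < q S_v ≤ 4 q S`; `f1p`: `‖Jc F0 v‖ ≥ kap/2 t w nm (F v) / S_v ≥ kap/2 t w (9/10 nm (F u)) / (4 S)`.
`circ_log`: `spk` (H44/DN/SPK) for `Jc F0` on `ball v (2 q S)`, `‖v - u'‖ ≤ 2 q S`: `‖J0'‖ 2 q S ≤ 2 ‖J0‖ log (X/‖J0‖)`, `X = 6 a0² / S`,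
`X / ‖J0‖ ≤ 60 M / (kap t)`, `log ≤ 2 L + log (60 M) ≤ 7 M L` (`exp (-L) ≤ t, kap`).
-/

set_option autoImplicit false

namespace Pool.Agent.H44.SR

open Pool.H70.SF Pool.Agent.H70.PL

theorem circ_ex (u : ℂ) (ρ : ℝ) (hρ : 0 < ρ) (Z : Finset ℂ) (n : ℕ) (hn : 1 ≤ n) (hZ : Z.card ≤ n) :
    ∃ ρ', ρ / 2 ≤ ρ' ∧ ρ' ≤ ρ ∧ ∀ z ∈ Z, ρ / (8 * n) ≤ |‖z - u‖ - ρ'| := by
  by_contra hno
  push Not at hno
  have hn1 : (1 : ℝ) ≤ n := by exact_mod_cast hn
  have hn0 : (0 : ℝ) < n := by linarith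
  have hd : 0 < ρ / (2 * n) := by positivity
  have hj : ∀ j ∈ Finset.range (n + 1), ∃ z ∈ Z,
      |‖z - u‖ - (ρ / 2 + j * (ρ / (2 * n)))| < ρ / (8 * n) := by
    intro j hj
    have hj1 : (j : ℝ) ≤ n := by
      have : j ≤ n := Nat.lt_succ_iff.1 (Finset.mem_range.1 hj)
      exact_mod_cast this
    refine hno _ ?_ ?_
    · have : 0 ≤ (j : ℝ) * (ρ / (2 * n)) := by positivity
      linarith
    · have h1 : (j : ℝ) * (ρ / (2 * n)) ≤ n * (ρ / (2 * n)) :=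
        mul_le_mul_of_nonneg_right hj1 hd.le
      have h2 : (n : ℝ) * (ρ / (2 * n)) = ρ / 2 := by
        field_simp
      linarith
  have hex : ∀ j : ℕ, ∃ z : ℂ, j ∈ Finset.range (n + 1) → z ∈ Z ∧
      |‖z - u‖ - (ρ / 2 + j * (ρ / (2 * n)))| < ρ / (8 * n) := by
    intro j
    by_cases h : j ∈ Finset.range (n + 1)
    · obtain ⟨z, hz, hz'⟩ := hj j h
      exact ⟨z, fun _ => ⟨hz, hz'⟩⟩
    · exact ⟨0, fun h' => absurd h' h⟩
  choose f hf using hex
  obtain ⟨j, hjm, k, hkm, hjk, hfe⟩ := Finset.exists_ne_map_eq_of_card_lt_of_maps_to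
    (s := Finset.range (n + 1)) (t := Z) (f := f) (by
      rw [Finset.card_range]
      omega) (fun j hj => (hf j hj).1)
  have key : ∀ a ∈ Finset.range (n + 1), ∀ b ∈ Finset.range (n + 1), a < b → f a ≠ f b := by
    intro a ha b hb hab he
    have h1 := (hf a ha).2
    have h2 := (hf b hb).2
    rw [he] at h1
    rw [abs_lt] at h1 h2
    have h3 : ((a : ℝ) + 1) ≤ b := by exact_mod_cast hab
    have h4 : ((b : ℝ) - a) * (ρ / (2 * n)) < 2 * (ρ / (8 * n)) := by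
      have : ((b : ℝ) - a) * (ρ / (2 * n)) = b * (ρ / (2 * n)) - a * (ρ / (2 * n)) := by ring
      rw [this]
      linarith
    have h5 : 2 * (ρ / (8 * n)) = 1 / 2 * (ρ / (2 * n)) := by
      field_simp
      norm_num
    rw [h5] at h4
    have h6 : 1 * (ρ / (2 * n)) ≤ ((b : ℝ) - a) * (ρ / (2 * n)) :=
      mul_le_mul_of_nonneg_right (by linarith) hd.le
    linarith
  rcases Nat.lt_or_gt_of_ne hjk with h | h
  · exact key j hjm k hkm h hfe
  · exact key k hkm j hjm h hfe.symm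

theorem circ (M A L t τ q q1 qn k1 k2 kap S0 w η : ℝ) (m : ℕ) (hM : 1 ≤ M) (hA : 100 * M ≤ A)
    (hw : 0 < w) (hK : Kon A L t τ q q1 qn k1 k2 kap S0 m) (hη : Kcv M L t τ q kap η)
    (F F0 : ℂ → ℂ × ℂ) (hF : Sta M w t k1 k2 qn F) (hP : Per τ w F F0) (u : ℂ) (hu : ‖u‖ ≤ 1)
    (S : ℝ) (hS : Nsc F u S) (e : ℂ × ℂ) (he : nm e = 1) :
    ∃ ρ', η * S / 2 ≤ ρ' ∧ ρ' ≤ η * S ∧ ∀ v, ‖v - u‖ = ρ' → ∀ z, ‖z - v‖ ≤ 8 * q * S →
      Jc F z ≠ 0 ∧ wd e (F0 z) ≠ 0 := by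
  obtain ⟨hη0, hkq, hkA, hq40, hq0, hk0, ht0⟩ := kap_le_eta hM hA hK hη
  have hS0 := hS.1
  have hS1 := hS.2.1
  have hL := hK.L1
  have hML : 1 ≤ M ^ 2 * L := by
    have h1 : 1 ≤ M ^ 2 := one_le_pow₀ hM
    nlinarith
  obtain ⟨f1, c1⟩ := f2_J M A L t τ q q1 qn k1 k2 kap S0 w m hM hA hw hK F F hF
    (per_self hK.τ0 hw hF.dif)
  obtain ⟨f2, c2⟩ := f2_e M A L t τ q q1 qn k1 k2 kap S0 w m hM hA hw hK F F0 hF hP e he
  obtain ⟨n, hn⟩ : ∃ n : ℕ, n = ⌊600 * (M ^ 2 * L)⌋₊ + 1 := ⟨_, rfl⟩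
  have hn1 : 1 ≤ n := by omega
  have hnR : (n : ℝ) ≤ 601 * (M ^ 2 * L) := by
    have h1 : ((⌊600 * (M ^ 2 * L)⌋₊ : ℕ) : ℝ) ≤ 600 * (M ^ 2 * L) :=
      Nat.floor_le (by positivity)
    rw [hn]
    push_cast
    linarith
  have hn0 : (0 : ℝ) < n := by exact_mod_cast (by omega : 0 < n)
  have hcard : (f1.toFinset ∪ f2.toFinset).card ≤ n := by
    have h1 := Finset.card_union_le f1.toFinset f2.toFinset
    have h2 : f1.toFinset.card + f2.toFinset.card ≤ ⌊600 * (M ^ 2 * L)⌋₊ := by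
      apply Nat.le_floor
      rw [← Set.ncard_eq_toFinset_card _ f1, ← Set.ncard_eq_toFinset_card _ f2]
      push_cast
      linarith
    omega
  obtain ⟨ρ', hρ1, hρ2, hρ3⟩ := circ_ex u (η * S) (mul_pos hη0 hS0) (f1.toFinset ∪ f2.toFinset)
    n hn1 hcard
  refine ⟨ρ', hρ1, hρ2, ?_⟩
  intro v hv z hz
  have hηS : η * S ≤ 1 / 100 := by
    have h1 := hη.η1
    nlinarith
  have hqS : 8 * q * S ≤ 1 / 100 := by
    have h1 : q * S ≤ q := by nlinarith
    have h2 := hη.η1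
    nlinarith
  have hz54 : ‖z‖ ≤ 5 / 4 := by
    have h1 := norm_add_le (z - v) v
    have h2 := norm_add_le (v - u) u
    rw [sub_add_cancel] at h1 h2
    linarith
  have hlt : 8 * q * S < η * S / (8 * n) := by
    rw [lt_div_iff₀ (by positivity)]
    have h1 : 64 * (q * n) < η := by
      have h2 : q * n ≤ q * (601 * (M ^ 2 * L)) := mul_le_mul_of_nonneg_left hnR hq0.le
      have h3 := hη.ηq
      have h4 : 0 < q * (M ^ 2 * L) := by positivity
      have h5 : 40000 * (q * (M ^ 2 * L)) ≤ η := by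
        have : 40000 * (q * (M ^ 2 * L)) = 40000 * M ^ 2 * L * q := by ring
        linarith
      linarith
    have h6 : 64 * (q * n) * S < η * S := mul_lt_mul_of_pos_right h1 hS0
    have h7 : 8 * q * S * (8 * n) = 64 * (q * n) * S := by ring
    linarith
  have hno : z ∉ f1.toFinset ∪ f2.toFinset := by
    intro hmem
    have h1 := hρ3 z hmem
    rw [← hv] at h1
    have h2 := abs_norm_sub_norm_le (z - u) (v - u)
    have h3 : z - u - (v - u) = z - v := by ring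
    rw [h3] at h2
    linarith
  rw [Finset.mem_union, not_or] at hno
  constructor
  · intro h0
    exact hno.1 ((Set.Finite.mem_toFinset f1).2 ⟨hz54, h0⟩)
  · intro h0
    refine hno.2 ((Set.Finite.mem_toFinset f2).2 ⟨hz54, ?_⟩)
    have : wd (F0 z) e = -wd e (F0 z) := by
      simp only [wd]
      ring
    rw [this, h0, neg_zero]

theorem circ_low (M A L t τ q q1 qn k1 k2 kap S0 w η : ℝ) (m : ℕ) (hM : 1 ≤ M) (hA : 100 * M ≤ A)
    (hw : 0 < w) (hK : Kon A L t τ q q1 qn k1 k2 kap S0 m) (hη : Kcv M L t τ q kap η)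
    (F F0 : ℂ → ℂ × ℂ) (hF : Sta M w t k1 k2 qn F) (hP : Per τ w F F0) (u : ℂ) (hu : ‖u‖ ≤ 1)
    (S : ℝ) (hS : Nsc F u S) (u' : ℂ) (hu' : ‖u' - u‖ ≤ η * S)
    (hz : ∀ z, ‖z - u'‖ ≤ 8 * q * S → Jc F z ≠ 0) (v : ℂ) (hv : ‖v - u'‖ ≤ 4 * q * S) :
    kap * t * w * nm (F0 u) / (10 * S) ≤ ‖Jc F0 v‖ := by
  obtain ⟨hη0, hkq, hkA, hq40, hq0, hk0, ht0⟩ := kap_le_eta hM hA hK hη
  have hS0 := hS.1
  have hS1 := hS.2.1
  have hvu : ‖v - u‖ ≤ S / 8 := by
    have h1 : v - u = (v - u') + (u' - u) := by ring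
    have h2 := norm_add_le (v - u') (u' - u)
    rw [← h1] at h2
    have h3 := hη.η1
    have h4 : η * S ≤ 1 / 100 * S := mul_le_mul_of_nonneg_right h3 hS0.le
    have h5 : q * S ≤ 1 / 100 * S := mul_le_mul_of_nonneg_right (by linarith) hS0.le
    linarith
  have hv1 : ‖v‖ ≤ 5 / 4 := by
    have h2 := norm_add_le (v - u) u
    rw [sub_add_cancel] at h2
    linarith
  obtain ⟨a1, a2, a3, a4, a5, a6⟩ := bs_nm M A L t τ q q1 qn k1 k2 kap S0 w m hM hA hw hK F F0 hF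
    hP u (by linarith)
  obtain ⟨b1, b2, b3, b4, b5, b6⟩ := bs_nm M A L t τ q q1 qn k1 k2 kap S0 w m hM hA hw hK F F0 hF
    hP v (by linarith)
  obtain ⟨Sv, hSv⟩ := nsc_ex hF.dif.continuous v b1
  obtain ⟨c1, c2⟩ := nsc_cmp hF.dif hS hSv a1 hvu
  have hSv0 := hSv.1
  have h1 := f1p M A L t τ q q1 qn k1 k2 kap S0 w m hM hA hw hK F F0 hF hP v hv1 Sv hSv (by
    intro z hzv
    apply hz
    have h1 : z - u' = (z - v) + (v - u') := by ring
    have h2 := norm_add_le (z - v) (v - u')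
    rw [← h1] at h2
    have h3 : q * Sv ≤ q * (4 * S) := mul_le_mul_of_nonneg_left c2 hq0.le
    linarith)
  refine le_trans ?_ h1
  have h2 := nsc_sch hF.dif hS v (by linarith)
  have h3 : ‖v - u‖ / S ≤ 1 / 8 := by
    rw [div_le_iff₀ hS0]
    linarith
  have h4 : ‖v - u‖ / S * (nm (F u) / 2) ≤ 1 / 8 * (nm (F u) / 2) :=
    mul_le_mul_of_nonneg_right h3 (by linarith)
  have h5 := nm_rev (F u) (F v)
  rw [nm_sub_comm (F u) (F v)] at h5
  have h6 : 9 / 10 * nm (F0 u) ≤ nm (F v) := by linarith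
  have hc : 0 < kap * t * w := by positivity
  rw [div_le_div_iff₀ (by positivity) hSv0]
  calc kap * t * w * nm (F0 u) * Sv ≤ kap * t * w * nm (F0 u) * (4 * S) :=
        mul_le_mul_of_nonneg_left c2 (by positivity)
    _ = kap * t * w * S * (4 * nm (F0 u)) := by ring
    _ ≤ kap * t * w * S * (5 * nm (F v)) :=
        mul_le_mul_of_nonneg_left (by linarith) (by positivity)
    _ = kap / 2 * t * w * nm (F v) * (10 * S) := by ring

theorem circ_log (M A L t τ q q1 qn k1 k2 kap S0 w η : ℝ) (m : ℕ) (hM : 1 ≤ M) (hA : 100 * M ≤ A)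
    (hw : 0 < w) (hK : Kon A L t τ q q1 qn k1 k2 kap S0 m) (hη : Kcv M L t τ q kap η)
    (F F0 : ℂ → ℂ × ℂ) (hF : Sta M w t k1 k2 qn F) (hP : Per τ w F F0) (u : ℂ) (hu : ‖u‖ ≤ 1)
    (S : ℝ) (hS : Nsc F u S) (u' : ℂ) (hu' : ‖u' - u‖ ≤ η * S)
    (hz : ∀ z, ‖z - u'‖ ≤ 8 * q * S → Jc F z ≠ 0) (v : ℂ) (hv : ‖v - u'‖ ≤ 2 * q * S) :
    ‖deriv (Jc F0) v‖ ≤ 8 * M * L / (q * S) * ‖Jc F0 v‖ := by
  obtain ⟨hη0, hkq, hkA, hq40, hq0, hk0, ht0⟩ := kap_le_eta hM hA hK hη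
  have hS0 := hS.1
  have hS1 := hS.2.1
  have hL := hK.L1
  obtain ⟨a1, a2, a3, a4, a5, a6⟩ := bs_nm M A L t τ q q1 qn k1 k2 kap S0 w m hM hA hw hK F F0 hF
    hP u (by linarith)
  have hlow := circ_low M A L t τ q q1 qn k1 k2 kap S0 w η m hM hA hw hK hη F F0 hF hP u hu S hS
    u' hu' hz
  have hlo0 : 0 < kap * t * w * nm (F0 u) / (10 * S) := by positivity
  have hball : ∀ x ∈ Metric.ball v (2 * q * S), Jc F0 x ≠ 0 ∧
      ‖Jc F0 x‖ < 6 * nm (F0 u) ^ 2 / S := by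
    intro x hx
    rw [mem_ball_iff_norm] at hx
    have h1 : x - u' = (x - v) + (v - u') := by ring
    have h2 := norm_add_le (x - v) (v - u')
    rw [← h1] at h2
    have h3 := hlow x (by linarith)
    refine ⟨norm_pos_iff.1 (hlo0.trans_le h3), ?_⟩
    have h4 : x - u = (x - u') + (u' - u) := by ring
    have h5 := norm_add_le (x - u') (u' - u)
    rw [← h4] at h5
    have h6 : η * S ≤ 1 / 100 * S := mul_le_mul_of_nonneg_right hη.η1 hS0.le
    have h7 : q * S ≤ 1 / 100 * S := mul_le_mul_of_nonneg_right (by linarith [hη.η1]) hS0.le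
    have h8 := (bs_der M A L t τ q q1 qn k1 k2 kap S0 w m hM hA hw hK F F0 hF hP u hu S hS x
      (by linarith)).2
    refine h8.trans_lt ?_
    rw [div_lt_div_iff_of_pos_right hS0]
    have : 0 < nm (F0 u) ^ 2 := by positivity
    linarith
  have hspk := Pool.Agent.H44.DN.spk (F := Jc F0) (z := v) (σ := 2 * q * S)
    (X := 6 * nm (F0 u) ^ 2 / S) (by positivity) (dif_Jc hP.dif).differentiableOn hball
  have hJl := hlow v (by nlinarith)
  have hJ0 : 0 < ‖Jc F0 v‖ := hlo0.trans_le hJl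
  have hlog : Real.log (6 * nm (F0 u) ^ 2 / S / ‖Jc F0 v‖) ≤ 8 * M * L := by
    have hτ1 : τ ≤ 1 := by
      have hA1 : 100 ≤ A := by linarith
      have h1 := hK.τk
      have h2 : kap * k1 * t ≤ 1 := by
        have h3 : kap * k1 ≤ 1 := by
          have h4 := hK.k1b
          have h5 : 0 < k1 := lt_of_lt_of_le (Real.exp_pos _) hK.k1L
          have h6 := hη.η1
          nlinarith
        have h4 := hK.t1
        have h5 : 0 < k1 := lt_of_lt_of_le (Real.exp_pos _) hK.k1L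
        have h6 : 0 ≤ kap * k1 := by positivity
        nlinarith
      have h3 := hK.τ0
      nlinarith
    have hb := per_b hM hw hτ1 hF hP u (by linarith)
    have hM0 : 0 < M := by linarith
    have h1 : 6 * nm (F0 u) ^ 2 / S / ‖Jc F0 v‖ ≤ Real.exp 5 * M * Real.exp (2 * L) := by
      have hx5 : (120 : ℝ) ≤ Real.exp 5 := by
        have h2 : Real.exp 5 = Real.exp 1 ^ 5 := by
          rw [← Real.exp_nat_mul]
          norm_num
        have h3 : (2.7 : ℝ) ≤ Real.exp 1 := by linarith [Real.exp_one_gt_d9]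
        rw [h2]
        calc (120 : ℝ) ≤ 2.7 ^ 5 := by norm_num
          _ ≤ Real.exp 1 ^ 5 := pow_le_pow_left₀ (by norm_num) h3 5
      have hkt : Real.exp (-(2 * L)) ≤ kap * t := by
        have h2 : Real.exp (-(2 * L)) = Real.exp (-L) * Real.exp (-L) := by
          rw [← Real.exp_add]
          congr 1
          ring
        rw [h2]
        exact mul_le_mul hK.kapL hK.tL (Real.exp_pos _).le hk0.le
      have h3 : 1 ≤ kap * t * Real.exp (2 * L) := by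
        have h4 : Real.exp (-(2 * L)) * Real.exp (2 * L) = 1 := by
          rw [← Real.exp_add, neg_add_cancel, Real.exp_zero]
        have h5 := mul_le_mul_of_nonneg_right hkt (Real.exp_pos (2 * L)).le
        rw [h4] at h5
        exact h5
      rw [div_le_iff₀ hJ0]
      have hE := Real.exp_pos (2 * L)
      calc 6 * nm (F0 u) ^ 2 / S = 6 * nm (F0 u) / S * nm (F0 u) := by ring
        _ ≤ 6 * nm (F0 u) / S * (2 * M * w) :=
            mul_le_mul_of_nonneg_left hb (by positivity)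
        _ = 12 * M * w * nm (F0 u) / S * 1 := by ring
        _ ≤ 12 * M * w * nm (F0 u) / S * (kap * t * Real.exp (2 * L)) :=
            mul_le_mul_of_nonneg_left h3 (by positivity)
        _ = 120 * M * Real.exp (2 * L) * (kap * t * w * nm (F0 u) / (10 * S)) := by
            field_simp
            ring
        _ ≤ Real.exp 5 * M * Real.exp (2 * L) * (kap * t * w * nm (F0 u) / (10 * S)) := by
            refine mul_le_mul_of_nonneg_right ?_ hlo0.le
            refine mul_le_mul_of_nonneg_right ?_ hE.le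
            exact mul_le_mul_of_nonneg_right hx5 hM0.le
        _ ≤ Real.exp 5 * M * Real.exp (2 * L) * ‖Jc F0 v‖ :=
            mul_le_mul_of_nonneg_left hJl (by positivity)
    have hX0 : 0 < 6 * nm (F0 u) ^ 2 / S / ‖Jc F0 v‖ := by positivity
    have h2 := Real.log_le_log hX0 h1
    rw [Real.log_mul (by positivity) (Real.exp_pos _).ne', Real.log_mul (Real.exp_pos _).ne'
      hM0.ne', Real.log_exp, Real.log_exp] at h2
    have h3 := Real.log_le_sub_one_of_pos hM0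
    have h4 : 1 ≤ M * L := by nlinarith
    have h5 : M ≤ M * L := by nlinarith
    have h6 : L ≤ M * L := by nlinarith
    linarith
  have h9 : 2 * ‖Jc F0 v‖ * Real.log (6 * nm (F0 u) ^ 2 / S / ‖Jc F0 v‖) ≤
      2 * ‖Jc F0 v‖ * (8 * M * L) := mul_le_mul_of_nonneg_left hlog (by positivity)
  have hqS : 0 < q * S := mul_pos hq0 hS0
  rw [div_mul_eq_mul_div, le_div_iff₀ hqS]
  have h10 : ‖deriv (Jc F0) v‖ * (2 * q * S) = 2 * (‖deriv (Jc F0) v‖ * (q * S)) := by ring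
  have h11 : 2 * ‖Jc F0 v‖ * (8 * M * L) = 2 * (8 * M * L * ‖Jc F0 v‖) := by ring
  linarith

end Pool.Agent.H44.SR
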