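import Pool.Agent.H44.SR.EXC

/-!
SHARP RATE, piece 3, module CVD: displacement of the critical values.

Frame `e` = direction of `F0 u` (`dir_ex`), `c` from `exc`, `a0 = nm (F0 u)`, `y = s w`, `r = 8 η y / a0`.
`a_c = pr (F0 c) e`, `b_c = wd e (F0 c)`: `|a_c - a0| ≤ 0.53 η a0`, `|b_c| ≤ r |a_c|` (`bs_pr`, `hh e F0 c = b_c / a_c`).
`A1 = pr (F1 u) e = a0 + y_a`, `wd e (F1 u) = y_b` (as `wd e (F0 u) = 0`), `|y_a|, |y_b| ≤ y ≤ a0 η / 100`;
`y_a' = pr (Y c) e`, `y_b' = wd e (Y c)`, `Y = F1 - F0`, `|y_b' - y_b| ≤ y η` (as in `zero_step`).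
`frame`: `wd (F0 c) (F1 u) = a_c y_b - b_c A1`; `pr (F1 u) (F0 c) = A1 conj a_c + y_b conj b_c`;
`wd (F0 c) (Y c) = a_c y_b' - b_c y_a'`; `nm (F0 c)² = |a_c|² + |b_c|²`.
Both quotients equal `y_b / a0` up to `40 η y / a0` (`cvd_alg`: pure algebra of complex numbers close to the real number `a0`).
`nm (F1 u - F0 c) ≤ y + nm (F0 u - F0 c) ≤ η / 50 a0 + 0.53 η a0`.
`exc` needs `0 < s`. If `s = 0` then `F1 = F0` on `‖v‖ ≤ 3`, so `Jc F0 u = Jc F1 u = 0` and `c = u` works (`wd a a = 0`).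
-/

set_option autoImplicit false

namespace Pool.Agent.H44.SR

open Pool.H70.SF Pool.Agent.H70.PL ComplexConjugate

private theorem cvd_quo {N D x : ℂ} {E k : ℝ} (hk : 0 < k) (hD : k ≤ ‖D‖) (h : ‖N - x * D‖ ≤ E * k) :
    ‖N / D - x‖ ≤ E := by
  have hD0 : 0 < ‖D‖ := lt_of_lt_of_le hk hD
  have hD1 : D ≠ 0 := norm_pos_iff.1 hD0
  have h1 : N / D - x = (N - x * D) / D := by field_simp
  have hE : 0 ≤ E := by
    by_contra hneg
    push Not at hneg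
    have := norm_nonneg (N - x * D)
    nlinarith
  rw [h1, norm_div, div_le_iff₀ hD0]
  exact h.trans (mul_le_mul_of_nonneg_left hD hE)

private theorem cvd_nsq (z : ℂ) : ((‖z‖ ^ 2 : ℝ) : ℂ) = z * conj z := by
  rw [Complex.mul_conj, Complex.normSq_eq_norm_sq]

private theorem cvd_alg1 {η y : ℝ} {ac bc ya yb ya' yb' : ℂ} (hη : 0 < η)
    (hη1 : η ≤ 1 / 100) (hy : 0 ≤ y) (hya0 : y ≤ η / 50)
    (h1 : ‖ac - 1‖ ≤ 53 / 100 * η) (h2 : ‖bc‖ ≤ 8 * η * y * ‖ac‖) (h3 : ‖ya‖ ≤ y) (h4 : ‖yb‖ ≤ y)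
    (h5 : ‖ya'‖ ≤ y) (h6 : ‖yb' - yb‖ ≤ η * y) :
    99 / 100 ≤ ‖(1 + ya) * conj ac + yb * conj bc‖ ∧
    ‖(ac * yb - bc * (1 + ya)) / ((1 + ya) * conj ac + yb * conj bc) -
      (ac * yb' - bc * ya') / ((‖ac‖ ^ 2 + ‖bc‖ ^ 2 : ℝ) : ℂ)‖ ≤ 80 * η * y := by
  set A := ‖ac‖ with hA
  set B := ‖bc‖ with hB
  have hηy : 0 ≤ η * y := mul_nonneg hη.le hy
  have hy5 : y ≤ 1 / 5000 := by linarith
  have hA0 : 0 ≤ A := norm_nonneg _
  have hB0 : 0 ≤ B := norm_nonneg _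
  have hA1 : A ≤ 10053 / 10000 := by
    have h := norm_add_le (ac - 1) 1
    rw [sub_add_cancel, norm_one] at h
    linarith
  have hA2 : 9947 / 10000 ≤ A := by
    have h := norm_sub_norm_le (1 : ℂ) (1 - ac)
    rw [norm_one, norm_sub_rev 1 ac, sub_sub_cancel] at h
    linarith
  have hB1 : B ≤ 9 * (η * y) := by
    calc B ≤ 8 * η * y * A := h2
      _ = 8 * (η * y) * A := by ring
      _ ≤ 8 * (η * y) * (10053 / 10000) := mul_le_mul_of_nonneg_left hA1 (by positivity)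
      _ ≤ 9 * (η * y) := by linarith
  have hηy1 : η * y ≤ 1 / 500000 := by
    calc η * y ≤ 1 / 100 * (1 / 5000) := mul_le_mul hη1 hy5 hy (by norm_num)
      _ = _ := by norm_num
  have hB2 : B ≤ 1 / 50000 := by linarith
  have hca : ‖conj ac‖ = A := by rw [RCLike.norm_conj]
  have hcb : ‖conj bc‖ = B := by rw [RCLike.norm_conj]
  have h1y : ‖1 + ya‖ ≤ 1 + y := by
    have h := norm_add_le 1 ya
    rw [norm_one] at h
    linarith
  have h1y' : 1 - y ≤ ‖1 + ya‖ := by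
    have h := norm_sub_norm_le (1 : ℂ) (-ya)
    rw [norm_one, norm_neg, sub_neg_eq_add] at h
    linarith
  have hybB : ‖yb * conj bc‖ ≤ 1 / 50000 := by
    rw [norm_mul, hcb]
    calc ‖yb‖ * B ≤ 1 * (1 / 50000) :=
          mul_le_mul (by linarith) hB2 hB0 (by norm_num)
      _ = _ := by norm_num
  have hD1 : 99 / 100 ≤ ‖(1 + ya) * conj ac + yb * conj bc‖ := by
    have h := norm_sub_norm_le ((1 + ya) * conj ac) (-(yb * conj bc))
    rw [norm_neg, sub_neg_eq_add, norm_mul, hca] at h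
    have h' : (1 - y) * A ≤ ‖1 + ya‖ * A := mul_le_mul_of_nonneg_right h1y' hA0
    nlinarith
  refine ⟨hD1, ?_⟩
  have e1 : ‖(ac * yb - bc * (1 + ya)) / ((1 + ya) * conj ac + yb * conj bc) - yb‖ ≤
      20 * (η * y) := by
    refine cvd_quo (k := 99 / 100) (by norm_num) hD1 ?_
    have hid : ac * yb - bc * (1 + ya) - yb * ((1 + ya) * conj ac + yb * conj bc) =
        yb * ((ac - 1) - conj (ac - 1)) - yb * ya * conj ac - bc * (1 + ya) -
          yb * (yb * conj bc) := by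
      rw [map_sub, map_one]
      ring
    rw [hid]
    have n1 : ‖yb * ((ac - 1) - conj (ac - 1))‖ ≤ y * (106 / 100 * η) := by
      rw [norm_mul]
      have h := norm_sub_le (ac - 1) (conj (ac - 1))
      rw [RCLike.norm_conj] at h
      exact mul_le_mul h4 (by linarith) (norm_nonneg _) hy
    have n2 : ‖yb * ya * conj ac‖ ≤ y * (η / 50) * 2 := by
      rw [norm_mul, norm_mul, hca]
      exact mul_le_mul (mul_le_mul h4 (h3.trans hya0) (norm_nonneg _) hy) (by linarith) hA0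
        (by positivity)
    have n3 : ‖bc * (1 + ya)‖ ≤ 9 * (η * y) * (10002 / 10000) := by
      rw [norm_mul]
      exact mul_le_mul hB1 (by linarith) (norm_nonneg _) (by positivity)
    have n4 : ‖yb * (yb * conj bc)‖ ≤ 1 * (1 * (9 * (η * y))) := by
      rw [norm_mul, norm_mul, hcb]
      exact mul_le_mul (by linarith) (mul_le_mul (by linarith) hB1 hB0 (by norm_num))
        (by positivity) (by norm_num)
    have t1 := norm_sub_le (yb * ((ac - 1) - conj (ac - 1)) - yb * ya * conj ac - bc * (1 + ya))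
      (yb * (yb * conj bc))
    have t2 := norm_sub_le (yb * ((ac - 1) - conj (ac - 1)) - yb * ya * conj ac) (bc * (1 + ya))
    have t3 := norm_sub_le (yb * ((ac - 1) - conj (ac - 1))) (yb * ya * conj ac)
    nlinarith
  have e2 : ‖(ac * yb' - bc * ya') / ((A ^ 2 + B ^ 2 : ℝ) : ℂ) - yb‖ ≤ 20 * (η * y) := by
    have hD2 : (98 / 100 : ℝ) ≤ ‖((A ^ 2 + B ^ 2 : ℝ) : ℂ)‖ := by
      rw [Complex.norm_real, Real.norm_of_nonneg (by positivity)]
      nlinarith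
    refine cvd_quo (k := 98 / 100) (by norm_num) hD2 ?_
    have hid : ac * yb' - bc * ya' - yb * ((A ^ 2 + B ^ 2 : ℝ) : ℂ) =
        ac * (yb' - yb) - yb * (ac * conj (ac - 1)) - bc * ya' - yb * (bc * conj bc) := by
      rw [Complex.ofReal_add, hA, hB, cvd_nsq, cvd_nsq, map_sub, map_one]
      ring
    rw [hid]
    have n1 : ‖ac * (yb' - yb)‖ ≤ 2 * (η * y) := by
      rw [norm_mul]
      exact mul_le_mul (by linarith) h6 (norm_nonneg _) (by norm_num)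
    have n2 : ‖yb * (ac * conj (ac - 1))‖ ≤ y * (2 * (53 / 100 * η)) := by
      rw [norm_mul, norm_mul, RCLike.norm_conj]
      exact mul_le_mul h4 (mul_le_mul (by linarith) h1 (norm_nonneg _) (by norm_num))
        (by positivity) hy
    have n3 : ‖bc * ya'‖ ≤ 9 * (η * y) * 1 := by
      rw [norm_mul]
      exact mul_le_mul hB1 (by linarith) (norm_nonneg _) (by positivity)
    have n4 : ‖yb * (bc * conj bc)‖ ≤ 1 * (9 * (η * y) * (1 / 50000)) := by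
      rw [norm_mul, norm_mul, hcb]
      exact mul_le_mul (by linarith) (mul_le_mul hB1 hB2 hB0 (by positivity))
        (by positivity) (by norm_num)
    have t1 := norm_sub_le (ac * (yb' - yb) - yb * (ac * conj (ac - 1)) - bc * ya')
      (yb * (bc * conj bc))
    have t2 := norm_sub_le (ac * (yb' - yb) - yb * (ac * conj (ac - 1))) (bc * ya')
    have t3 := norm_sub_le (ac * (yb' - yb)) (yb * (ac * conj (ac - 1)))
    nlinarith
  calc ‖(ac * yb - bc * (1 + ya)) / ((1 + ya) * conj ac + yb * conj bc) -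
      (ac * yb' - bc * ya') / ((A ^ 2 + B ^ 2 : ℝ) : ℂ)‖
      = ‖((ac * yb - bc * (1 + ya)) / ((1 + ya) * conj ac + yb * conj bc) - yb) -
      ((ac * yb' - bc * ya') / ((A ^ 2 + B ^ 2 : ℝ) : ℂ) - yb)‖ := by
        congr 1
        ring
    _ ≤ 20 * (η * y) + 20 * (η * y) := (norm_sub_le _ _).trans (add_le_add e1 e2)
    _ ≤ 80 * η * y := by nlinarith

private theorem cvd_alg2 {a0 η y r : ℝ} {ac bc ya yb ya' yb' : ℂ} (ha : 0 < a0) (hη : 0 < η)
    (hη1 : η ≤ 1 / 100) (hy : 0 ≤ y) (hya0 : y ≤ η / 50 * a0) (hr : r = 8 * η * (y / a0))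
    (h1 : ‖ac - a0‖ ≤ 53 / 100 * η * a0) (h2 : ‖bc‖ ≤ r * ‖ac‖) (h3 : ‖ya‖ ≤ y) (h4 : ‖yb‖ ≤ y)
    (h5 : ‖ya'‖ ≤ y) (h6 : ‖yb' - yb‖ ≤ η * y) :
    (a0 + ya) * conj ac + yb * conj bc ≠ 0 ∧
    ‖(ac * yb - bc * (a0 + ya)) / ((a0 + ya) * conj ac + yb * conj bc) -
      (ac * yb' - bc * ya') / ((‖ac‖ ^ 2 + ‖bc‖ ^ 2 : ℝ) : ℂ)‖ ≤ 80 * η * (y / a0) := by
  have hac : (a0 : ℂ) ≠ 0 := by exact_mod_cast ha.ne'
  have hna : ‖(a0 : ℂ)‖ = a0 := by rw [Complex.norm_real, Real.norm_of_nonneg ha.le]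
  have hdiv : ∀ z : ℂ, ∃ x : ℂ, z = a0 * x := fun z => ⟨z / a0, by field_simp⟩
  obtain ⟨ac', rfl⟩ := hdiv ac
  obtain ⟨bc', rfl⟩ := hdiv bc
  obtain ⟨ya1, rfl⟩ := hdiv ya
  obtain ⟨yb1, rfl⟩ := hdiv yb
  obtain ⟨ya2, rfl⟩ := hdiv ya'
  obtain ⟨yb2, rfl⟩ := hdiv yb'
  obtain ⟨Y, rfl⟩ : ∃ Y, y = a0 * Y := ⟨y / a0, by field_simp⟩
  have hY : a0 * Y / a0 = Y := by field_simp
  rw [hY] at hr ⊢
  subst hr
  have g0 : 0 ≤ Y := nonneg_of_mul_nonneg_right hy ha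
  have g1 : ‖ac' - 1‖ ≤ 53 / 100 * η := by
    have h : (a0 : ℂ) * ac' - a0 = a0 * (ac' - 1) := by ring
    rw [h, norm_mul, hna] at h1
    nlinarith
  have g2 : ‖bc'‖ ≤ 8 * η * Y * ‖ac'‖ := by
    rw [norm_mul, norm_mul, hna] at h2
    have h : a0 * ‖bc'‖ ≤ a0 * (8 * η * Y * ‖ac'‖) := h2.trans (le_of_eq (by ring))
    exact le_of_mul_le_mul_left h ha
  have g3 : ‖ya1‖ ≤ Y := by
    rw [norm_mul, hna] at h3
    exact le_of_mul_le_mul_left h3 ha
  have g4 : ‖yb1‖ ≤ Y := by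
    rw [norm_mul, hna] at h4
    exact le_of_mul_le_mul_left h4 ha
  have g5 : ‖ya2‖ ≤ Y := by
    rw [norm_mul, hna] at h5
    exact le_of_mul_le_mul_left h5 ha
  have g6 : ‖yb2 - yb1‖ ≤ η * Y := by
    rw [← mul_sub, norm_mul, hna] at h6
    have h : a0 * ‖yb2 - yb1‖ ≤ a0 * (η * Y) := h6.trans (le_of_eq (by ring))
    exact le_of_mul_le_mul_left h ha
  have g7 : Y ≤ η / 50 := by
    have h : a0 * Y ≤ a0 * (η / 50) := hya0.trans (le_of_eq (by ring))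
    exact le_of_mul_le_mul_left h ha
  obtain ⟨k1, k2⟩ := cvd_alg1 hη hη1 g0 g7 g1 g2 g3 g4 g5 g6
  have d1 : (a0 + a0 * ya1) * conj (a0 * ac') + a0 * yb1 * conj (a0 * bc') =
      (a0 : ℂ) ^ 2 * ((1 + ya1) * conj ac' + yb1 * conj bc') := by
    rw [map_mul, map_mul, Complex.conj_ofReal]
    ring
  have d2 : (((‖(a0 : ℂ) * ac'‖ ^ 2 + ‖(a0 : ℂ) * bc'‖ ^ 2 : ℝ)) : ℂ) =
      (a0 : ℂ) ^ 2 * ((‖ac'‖ ^ 2 + ‖bc'‖ ^ 2 : ℝ) : ℂ) := by
    rw [norm_mul, norm_mul, hna]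
    push_cast
    ring
  have d3 : (a0 : ℂ) * ac' * (a0 * yb1) - a0 * bc' * (a0 + a0 * ya1) =
      (a0 : ℂ) ^ 2 * (ac' * yb1 - bc' * (1 + ya1)) := by ring
  have d4 : (a0 : ℂ) * ac' * (a0 * yb2) - a0 * bc' * (a0 * ya2) =
      (a0 : ℂ) ^ 2 * (ac' * yb2 - bc' * ya2) := by ring
  have ha2 : (a0 : ℂ) ^ 2 ≠ 0 := pow_ne_zero 2 hac
  rw [d1, d2, d3, d4, mul_div_mul_left _ _ ha2, mul_div_mul_left _ _ ha2]
  refine ⟨mul_ne_zero ha2 ?_, k2⟩
  intro h
  rw [h, norm_zero] at k1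
  norm_num at k1

/-- the algebra of step (iv) -/
theorem cvd_alg {a0 η y r : ℝ} {ac bc ya yb ya' yb' : ℂ} (ha : 0 < a0) (hη : 0 < η)
    (hη1 : η ≤ 1 / 100) (hy : 0 ≤ y) (hya0 : y ≤ η / 50 * a0) (hr : r = 8 * η * (y / a0))
    (h1 : ‖ac - a0‖ ≤ 53 / 100 * η * a0) (h2 : ‖bc‖ ≤ r * ‖ac‖) (h3 : ‖ya‖ ≤ y) (h4 : ‖yb‖ ≤ y)
    (h5 : ‖ya'‖ ≤ y) (h6 : ‖yb' - yb‖ ≤ η * y) :
    ‖(ac * yb - bc * (a0 + ya)) / ((a0 + ya) * conj ac + yb * conj bc) -
      (ac * yb' - bc * ya') / ((‖ac‖ ^ 2 + ‖bc‖ ^ 2 : ℝ) : ℂ)‖ ≤ 80 * η * (y / a0) := by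
  exact (cvd_alg2 ha hη hη1 hy hya0 hr h1 h2 h3 h4 h5 h6).2

private theorem cvd_frame (a b e : ℂ × ℂ) (he : nm e = 1) :
    pr a b = pr a e * conj (pr b e) + wd e a * conj (wd e b) := by
  have h1 : e.1 * conj e.1 + e.2 * conj e.2 = 1 := by
    rw [← cvd_nsq, ← cvd_nsq, ← Complex.ofReal_add, ← nm_sq, he]
    norm_num
  have h2 : pr a e * conj (pr b e) + wd e a * conj (wd e b) =
      (e.1 * conj e.1 + e.2 * conj e.2) * pr a b := by
    simp only [wd, pr, map_add, map_sub, map_mul, Complex.conj_conj]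
    ring
  rw [h2, h1, one_mul]

private theorem cvd_pr_self (a : ℂ × ℂ) : pr a a = ((nm a ^ 2 : ℝ) : ℂ) := by
  rw [nm_sq, Complex.ofReal_add, cvd_nsq, cvd_nsq]
  rfl

private theorem cvd_wd_sub (e a b : ℂ × ℂ) : wd e (a - b) = wd e a - wd e b := by
  simp only [wd, Prod.fst_sub, Prod.snd_sub]
  ring

private theorem cvd_wd_self (a : ℂ × ℂ) : wd a a = 0 := by
  simp only [wd]
  ring

theorem cvd (M A L t τ q q1 qn k1 k2 kap S0 w η : ℝ) (m : ℕ) (hM : 1 ≤ M) (hA : 100 * M ≤ A)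
    (hw : 0 < w) (hK : Kon A L t τ q q1 qn k1 k2 kap S0 m) (hη : Kcv M L t τ q kap η)
    (F F0 F1 : ℂ → ℂ × ℂ)
    (hF : Sta M w t k1 k2 qn F) (hP : Per τ w F F0) (hP1 : Per τ w F F1) (u : ℂ) (hu : ‖u‖ ≤ 1)
    (S : ℝ) (hS : Nsc F u S) (s : ℝ) (hs : 0 ≤ s) (hsτ : s ≤ τ)
    (hY : ∀ v, ‖v‖ ≤ 3 → nm (F1 v - F0 v) ≤ s * w) (hJ : Jc F1 u = 0) :
    ∃ c, ‖c - u‖ ≤ η * S ∧ Jc F0 c = 0 ∧ nm (F1 u - F0 c) ≤ η * nm (F0 c) ∧
      pr (F1 u) (F0 c) ≠ 0 ∧
      ‖wd (F0 c) (F1 u) / pr (F1 u) (F0 c) -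
        wd (F0 c) (F1 c - F0 c) / ((nm (F0 c) ^ 2 : ℝ) : ℂ)‖ ≤ 100 * η * (s * w / nm (F0 c)) := by
  obtain ⟨hη0, hkq, hkA, hqη, hq0, hk0, ht0⟩ := kap_le_eta hM hA hK hη
  have hη1 := hη.η1
  obtain ⟨b1, b2, b3, b4, b5, b6⟩ := bs_nm M A L t τ q q1 qn k1 k2 kap S0 w m hM hA hw hK F F0 hF hP u
    (by linarith)
  rcases hs.eq_or_lt with hs0 | hspos
  · have heq : ∀ v, ‖v‖ ≤ 3 → F1 v = F0 v := by
      intro v hv
      have h1 := hY v hv
      rw [← hs0, zero_mul] at h1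
      have h2 := (nm_eq_zero _).1 (le_antisymm h1 (nm_nonneg _))
      exact sub_eq_zero.1 h2
    have hu3 : F1 u = F0 u := heq u (by linarith)
    have hder : deriv F1 u = deriv F0 u := by
      apply Filter.EventuallyEq.deriv_eq
      have h3 : Metric.ball (0 : ℂ) 3 ∈ nhds u := Metric.isOpen_ball.mem_nhds (by
        rw [mem_ball_zero_iff]
        linarith)
      filter_upwards [h3] with v hv
      rw [mem_ball_zero_iff] at hv
      exact heq v hv.le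
    have hJ0 : Jc F0 u = 0 := by
      unfold Jc at hJ ⊢
      rw [← hu3, ← hder]
      exact hJ
    refine ⟨u, ?_, hJ0, ?_, ?_, ?_⟩
    · rw [sub_self, norm_zero]
      exact mul_nonneg hη0.le hS.1.le
    · rw [hu3, sub_self, (nm_eq_zero (0 : ℂ × ℂ)).2 rfl]
      positivity
    · rw [hu3, cvd_pr_self]
      have : nm (F0 u) ^ 2 ≠ 0 := pow_ne_zero 2 b2.ne'
      exact_mod_cast this
    · rw [hu3, cvd_wd_self, sub_self]
      have h5 : wd (F0 u) 0 = 0 := by simp [wd]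
      rw [h5, zero_div, zero_div, sub_zero, norm_zero]
      positivity
  · obtain ⟨e, he⟩ := dir_ex b2
    obtain ⟨c, c1, c2, c3⟩ := exc M A L t τ q q1 qn k1 k2 kap S0 w η m hM hA hw hK hη F F0 F1 hF hP
      hP1 u hu S hS e he s hspos hsτ hY hJ
    have hS0 := hS.1
    have hS1 := hS.2.1
    have hηS2 : η * S ≤ 1 / 100 * S := mul_le_mul_of_nonneg_right hη1 hS0.le
    have hcS : ‖c - u‖ ≤ S / 2 := by linarith
    have hcq : ‖c - u‖ / S ≤ η := by
      rw [div_le_iff₀ hS0]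
      exact c1
    have hcq0 : 0 ≤ ‖c - u‖ / S := div_nonneg (norm_nonneg _) hS0.le
    obtain ⟨p1, p2, p3, p4, p5⟩ := bs_pr M A L t τ q q1 qn k1 k2 kap S0 w m hM hA hw hK F F0 hF hP u
      hu S hS e he c hcS
    have hsch := bs_sch M A L t τ q q1 qn k1 k2 kap S0 w m hM hA hw hK F F0 hF hP u
      hu S hS c (by linarith)
    have hcu1 : ‖c - u‖ ≤ 1 := by linarith
    have hc3 : ‖c‖ ≤ 3 := by
      have h := norm_add_le (c - u) u
      rw [sub_add_cancel] at h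
      linarith
    set a0 := nm (F0 u) with ha0
    set y := s * w with hy
    have hy0 : 0 ≤ y := mul_nonneg hs hw.le
    have hyτ : y ≤ τ * w := mul_le_mul_of_nonneg_right hsτ hw.le
    have hya : y ≤ η / 50 * a0 := by
      have h1 : kap / A * nm (F u) ≤ η / 100 * nm (F u) :=
        mul_le_mul_of_nonneg_right hkA b1.le
      have h2 : nm (F u) ≤ 2 * a0 := by linarith
      have h2' : η / 100 * nm (F u) ≤ η / 100 * (2 * a0) :=
        mul_le_mul_of_nonneg_left h2 (by positivity)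
      linarith
    have hY0 : Differentiable ℂ (fun v => F1 v - F0 v) := hP1.dif.sub hP.dif
    have hdY : ∀ v, ‖v - u‖ ≤ 1 → nm (deriv (fun v => F1 v - F0 v) v) ≤ y := by
      intro v hv
      have h := cauP hY0 v 1 y one_pos (fun z hz => hY z (by
        have h1 := norm_add_le (z - v) v
        have h2 := norm_add_le (v - u) u
        rw [sub_add_cancel] at h1 h2
        linarith))
      rwa [div_one] at h
    have hmv := mvP hY0 u 1 y hdY c u hcu1 (by rw [sub_self, norm_zero]; exact zero_le_one)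
    have hηS : η * S ≤ η * 1 := mul_le_mul_of_nonneg_left hS1 hη0.le
    have hcη : ‖c - u‖ ≤ η := by linarith
    have hYu := hY u (by linarith)
    have hYc := hY c hc3
    have hpa : 0 < ‖pr (F0 c) e‖ := lt_of_lt_of_le (by positivity) p3
    have h2 : ‖wd e (F0 c)‖ ≤ 8 * η * (y / a0) * ‖pr (F0 c) e‖ := by
      unfold hh at c3
      rw [norm_div, div_lt_iff₀ hpa] at c3
      exact c3.le
    have h1 : ‖pr (F0 c) e - a0‖ ≤ 53 / 100 * η * a0 := by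
      refine p1.trans ?_
      have : 53 / 100 * (‖c - u‖ / S) ≤ 53 / 100 * η := by linarith
      exact mul_le_mul_of_nonneg_right this b2.le
    have h3 : ‖pr (F1 u - F0 u) e‖ ≤ y := by
      have h := pr_le (F1 u - F0 u) e
      rw [he.one, mul_one] at h
      exact h.trans hYu
    have h4 : ‖wd e (F1 u - F0 u)‖ ≤ y := by
      have h := wd_le e (F1 u - F0 u)
      rw [he.one, one_mul] at h
      exact h.trans hYu
    have h5 : ‖pr (F1 c - F0 c) e‖ ≤ y := by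
      have h := pr_le (F1 c - F0 c) e
      rw [he.one, mul_one] at h
      exact h.trans hYc
    have h6 : ‖wd e (F1 c - F0 c) - wd e (F1 u - F0 u)‖ ≤ η * y := by
      rw [← cvd_wd_sub]
      have h := wd_le e (F1 c - F0 c - (F1 u - F0 u))
      rw [he.one, one_mul] at h
      refine h.trans (hmv.trans ?_)
      calc y * ‖c - u‖ ≤ y * η := mul_le_mul_of_nonneg_left hcη hy0
        _ = η * y := mul_comm _ _
    obtain ⟨k1, k2⟩ := cvd_alg2 b2 hη0 hη1 hy0 hya rfl h1 h2 h3 h4 h5 h6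
    have hF1p : pr (F1 u) e = a0 + pr (F1 u - F0 u) e := by
      rw [pr_sub, he.prr]
      ring
    have hF1w : wd e (F1 u) = wd e (F1 u - F0 u) := by
      rw [cvd_wd_sub, he.wdd, sub_zero]
    have q1' : pr (F1 u) (F0 c) = (a0 + pr (F1 u - F0 u) e) * conj (pr (F0 c) e) +
        wd e (F1 u - F0 u) * conj (wd e (F0 c)) := by
      rw [cvd_frame (F1 u) (F0 c) e he.one, hF1p, hF1w]
    have q2 : wd (F0 c) (F1 u) = pr (F0 c) e * wd e (F1 u - F0 u) -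
        wd e (F0 c) * (a0 + pr (F1 u - F0 u) e) := by
      rw [frame (F0 c) (F1 u) e he.one, hF1p, hF1w]
    have q3 : wd (F0 c) (F1 c - F0 c) = pr (F0 c) e * wd e (F1 c - F0 c) -
        wd e (F0 c) * pr (F1 c - F0 c) e := frame _ _ _ he.one
    have q4 : nm (F0 c) ^ 2 = ‖pr (F0 c) e‖ ^ 2 + ‖wd e (F0 c)‖ ^ 2 := by
      have h := cvd_frame (F0 c) (F0 c) e he.one
      rw [cvd_pr_self, ← cvd_nsq, ← cvd_nsq, ← Complex.ofReal_add] at h
      exact_mod_cast h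
    have hsch' : nm (F0 c - F0 u) ≤ 53 / 100 * η * a0 := by
      refine hsch.trans ?_
      have : 53 / 100 * (‖c - u‖ / S) ≤ 53 / 100 * η := by linarith
      exact mul_le_mul_of_nonneg_right this b2.le
    have hηa : η * a0 ≤ 1 / 100 * a0 := mul_le_mul_of_nonneg_right hη1 b2.le
    have hnc1 : nm (F0 c) ≤ 101 / 100 * a0 := by
      have h := nm_rev (F0 c) (F0 u)
      linarith
    have hnc2 : 99 / 100 * a0 ≤ nm (F0 c) := by
      have h := nm_rev (F0 u) (F0 c)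
      rw [nm_sub_comm] at h
      linarith
    have hnc0 : 0 < nm (F0 c) := lt_of_lt_of_le (by positivity) hnc2
    refine ⟨c, c1, c2, ?_, ?_, ?_⟩
    · have h := nm_tri (F1 u) (F0 u) (F0 c)
      rw [nm_sub_comm (F0 u) (F0 c)] at h
      have h7 : η * (99 / 100 * a0) ≤ η * nm (F0 c) := mul_le_mul_of_nonneg_left hnc2 hη0.le
      have h12 : 0 ≤ η * a0 := mul_nonneg hη0.le b2.le
      linarith
    · rw [q1']
      exact k1
    · rw [q1', q2, q3, q4]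
      refine k2.trans ?_
      have h8 : y / a0 ≤ 101 / 100 * (y / nm (F0 c)) := by
        rw [div_le_iff₀ b2]
        have h9 : 101 / 100 * (y / nm (F0 c)) * a0 = y * (101 / 100 * a0 / nm (F0 c)) := by ring
        rw [h9]
        have h10 : 1 ≤ 101 / 100 * a0 / nm (F0 c) := by
          rw [le_div_iff₀ hnc0]
          linarith
        exact le_mul_of_one_le_right hy0 h10
      have h11 : 0 ≤ y / nm (F0 c) := div_nonneg hy0 hnc0.le
      have h12 := mul_le_mul_of_nonneg_left h8 hη0.le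
      have h13 := mul_nonneg hη0.le h11
      linarith

end Pool.Agent.H44.SR
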