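import Pool.Agent.H44.SR.CVD
import Pool.Agent.H84.SR2.Kon

/-!
SHARP RATE, piece 3: the statement `CvdStmt` (H84/SR2/Def) from `cvd`.

`η = 40000 MM² LL qq`; `F = Fb Xs b`, `F0 = Fb X b`, `F1 = Fb (X + Y) b`, `τ = (C1 + CY C1) hh`, `s = CY σ`.
-/

set_option autoImplicit false

open Filter Topology

namespace Pool.Agent.H44.SR

open Pool.H70.SF Pool.Agent.H70.PL Pool.Agent.H84.SRT Pool.Agent.H47.SR Pool.H91.SR Pool.Agent.H85.LD

theorem hev_add' {d : ℕ} (p q : Fin (d + 1) → ℂ) (u : ℂ × ℂ) : hev (p + q) u = hev p u + hev q u := by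
  unfold hev
  rw [← Finset.sum_add_distrib]
  refine Finset.sum_congr rfl fun k _ => ?_
  rw [Pi.add_apply]
  ring

theorem hev_sub' {d : ℕ} (p q : Fin (d + 1) → ℂ) (u : ℂ × ℂ) : hev (p - q) u = hev p u - hev q u := by
  unfold hev
  rw [← Finset.sum_sub_distrib]
  refine Finset.sum_congr rfl fun k _ => ?_
  rw [Pi.sub_apply]
  ring

theorem Fb_add {d : ℕ} (X Y : CV d) (b u : ℂ) : Fb (X + Y) b u = Fb X b u + Fb Y b u := by
  unfold Fb FF
  refine Prod.ext ?_ ?_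
  · exact hev_add' X.1 Y.1 _
  · exact hev_add' X.2 Y.2 _

theorem Fb_sub {d : ℕ} (X Y : CV d) (b u : ℂ) : Fb (X - Y) b u = Fb X b u - Fb Y b u := by
  unfold Fb FF
  refine Prod.ext ?_ ?_
  · exact hev_sub' X.1 Y.1 _
  · exact hev_sub' X.2 Y.2 _

theorem nm_sq' (a : ℂ × ℂ) : nm a ^ 2 = n2 a := by
  unfold nm
  exact Real.sq_sqrt (n2_nonneg' a)

/-- a perturbation of amplitude at most `a` is a perturbed map in every chart -/
theorem amp_per {d : ℕ} {s : Finset ℂ} {w : ℂ → ℝ} {a : ℝ} {X Xs : CV d} (h : Amp s w a (X - Xs)) {b : ℂ}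
    (hb : b ∈ s) : Per a (w b) (Fb Xs b) (Fb X b) := by
  refine ⟨Fb_diff X b, fun u hu => ?_⟩
  have h1 := h b hb u hu
  rwa [Fb_sub] at h1

theorem kap_tt {e : ℝ} {d : ℕ} (hd : 1 ≤ d) : kap e d * tt e d = (d : ℝ) ^ (7 * e / 8) * H84.SRT.hh d := by
  have hd0 : (0 : ℝ) < d := by exact_mod_cast hd
  have h1 : H84.SRT.hh d = (d : ℝ) ^ (-(1 / 2 : ℝ)) := by
    unfold H84.SRT.hh
    rw [Real.sqrt_eq_rpow, Real.rpow_neg hd0.le, one_div]
  rw [h1]
  unfold kap tt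
  rw [← Real.rpow_add hd0, ← Real.rpow_add hd0]
  congr 1
  ring

theorem cvdStmt (A : ℝ) (hA : 100 * MM ≤ A) : CvdStmt A := by
  intro C1 CY hC1 hCY e he he4
  have hMM : (1 : ℝ) ≤ MM := by unfold MM; norm_num
  have hA1 : 1 ≤ A := by linarith
  have hCC : 0 ≤ C1 + CY * C1 := by positivity
  filter_upwards [kon_ev hA1 hCC he he4, LL_one, be_LL he (4000000 * MM ^ 2 * CY) 1,
    pow_ev' he he4 (10000 * MM * (C1 + CY * C1)) 1 5 (by norm_num), eventually_ge_atTop 1]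
    with d hK hL hbe hpw hd s w Xs hW X Y σ hσ hσ1 hX hY b hb u' hu' hJ
  have hd0 : (0 : ℝ) < d := by exact_mod_cast hd
  have hd1 : (1 : ℝ) ≤ d := by exact_mod_cast hd
  have hb0 : 0 < be e d := be_pos e hd
  have hb1 : be e d ≤ 1 := be_le_one he hd
  have hh0 : 0 < H84.SRT.hh d := by unfold H84.SRT.hh; positivity
  obtain ⟨β, hβ⟩ : ∃ β, β = be e d := ⟨_, rfl⟩
  rw [pow_one] at hbe hpw
  have hq : qq e d = β ^ 5 := by rw [hβ]; rfl
  rw [← hβ] at hbe hpw hb0 hb1 ⊢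
  obtain ⟨η, hη⟩ : ∃ η, η = 40000 * MM ^ 2 * LL d * qq e d := ⟨_, rfl⟩
  have hη0 : 0 < η := by
    rw [hη, hq]
    positivity
  have h100 : 100 * η * CY ≤ β ^ 4 := by
    have h1 : 100 * η * CY = (4000000 * MM ^ 2 * CY * LL d * β) * β ^ 4 := by
      rw [hη, hq]
      ring
    rw [h1]
    have h2 : 0 < β ^ 4 := by positivity
    nlinarith
  have hβ4 : β ^ 4 ≤ β := by
    calc β ^ 4 ≤ β ^ 1 := pow_le_pow_of_le_one hb0.le hb1 (by norm_num)
      _ = β := pow_one β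
  have h100' : 100 * η ≤ β ^ 4 := by nlinarith
  have hKc : Kcv MM (LL d) (tt e d) ((C1 + CY * C1) * H84.SRT.hh d) (qq e d) (kap e d) η := by
    refine ⟨by linarith, by rw [hη], ?_⟩
    rw [kap_tt hd, hq]
    have h1 : (d : ℝ) ^ (e / 100) ≤ (d : ℝ) ^ (7 * e / 8) :=
      Real.rpow_le_rpow_of_exponent_le hd1 (by linarith)
    have h2 : 10000 * MM * (C1 + CY * C1) * LL d ≤ (d : ℝ) ^ (7 * e / 8) * β ^ 5 :=
      hpw.trans (mul_le_mul_of_nonneg_right h1 (by positivity))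
    calc 10000 * MM * LL d * ((C1 + CY * C1) * H84.SRT.hh d)
        = (10000 * MM * (C1 + CY * C1) * LL d) * H84.SRT.hh d := by ring
      _ ≤ ((d : ℝ) ^ (7 * e / 8) * β ^ 5) * H84.SRT.hh d := mul_le_mul_of_nonneg_right h2 hh0.le
      _ = (d : ℝ) ^ (7 * e / 8) * H84.SRT.hh d * β ^ 5 := by ring
  have hw : 0 < w b := hW.wgt.pos b
  have hSta := hW.sta b hb
  have hP0 : Per (C1 * H84.SRT.hh d) (w b) (Fb Xs b) (Fb X b) := amp_per hX hb
  have hle : C1 * H84.SRT.hh d ≤ (C1 + CY * C1) * H84.SRT.hh d :=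
    mul_le_mul_of_nonneg_right (by nlinarith) hh0.le
  have hYb : ∀ v, ‖v‖ ≤ 3 → nm (Fb (X + Y) b v - Fb X b v) ≤ CY * σ * w b := by
    intro v hv
    rw [Fb_add, add_sub_cancel_left]
    exact hY b hb v hv
  have hP0' : Per ((C1 + CY * C1) * H84.SRT.hh d) (w b) (Fb Xs b) (Fb X b) :=
    ⟨hP0.dif, fun v hv => (hP0.near v hv).trans (mul_le_mul_of_nonneg_right hle hw.le)⟩
  have hsτ : CY * σ ≤ (C1 + CY * C1) * H84.SRT.hh d := by
    have h1 : CY * σ ≤ CY * (C1 * H84.SRT.hh d) := mul_le_mul_of_nonneg_left hσ1 (by linarith)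
    nlinarith
  have hP1 : Per ((C1 + CY * C1) * H84.SRT.hh d) (w b) (Fb Xs b) (Fb (X + Y) b) := by
    refine ⟨Fb_diff _ b, fun v hv => ?_⟩
    have h1 := hYb v hv
    have h2 := hP0.near v hv
    have h3 := nm_tri (Fb (X + Y) b v) (Fb X b v) (Fb Xs b v)
    have h4 : CY * σ * w b ≤ CY * (C1 * H84.SRT.hh d) * w b :=
      mul_le_mul_of_nonneg_right (mul_le_mul_of_nonneg_left hσ1 (by linarith)) hw.le
    calc nm (Fb (X + Y) b v - Fb Xs b v) ≤ CY * (C1 * H84.SRT.hh d) * w b + C1 * H84.SRT.hh d * w b := by linarith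
      _ = (C1 + CY * C1) * H84.SRT.hh d * w b := by ring
  have ht : 0 < tt e d := (Real.exp_pos _).trans_le hK.tL
  have hk1 : 0 < k1 A e d := (Real.exp_pos _).trans_le hK.k1L
  have hpos : 0 < nm (Fb Xs b u') :=
    (mul_pos (mul_pos hk1 ht) hw).trans_le (hSta.low u' (by linarith))
  obtain ⟨S, hS⟩ := nsc_ex hSta.dif.continuous u' hpos
  obtain ⟨c, hc1, hc2, hc3, hc4, hc5⟩ := cvd MM A (LL d) (tt e d) ((C1 + CY * C1) * H84.SRT.hh d) (qq e d)
    (q1 A e d) (qn A e d) (k1 A e d) (k2 A e d) (kap e d) (S0 e d) (w b) η (mm e) hMM hA hw hK hKc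
    (Fb Xs b) (Fb X b) (Fb (X + Y) b) hSta hP0' hP1 u' (by linarith) S hS (CY * σ) (by positivity)
    hsτ hYb hJ
  obtain ⟨a, ha⟩ : ∃ a, a = Fb X b c := ⟨_, rfl⟩
  obtain ⟨G, hG⟩ : ∃ G, G = Fb (X + Y) b u' := ⟨_, rfl⟩
  obtain ⟨y, hy⟩ : ∃ y, y = Fb Y b c := ⟨_, rfl⟩
  have hFc : Fb (X + Y) b c - Fb X b c = y := by rw [Fb_add, add_sub_cancel_left, hy]
  rw [hFc] at hc5
  rw [← ha, ← hG] at hc3 hc4 hc5
  have hcS : ‖c - u'‖ ≤ η := by
    have h1 := hS.2.1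
    have h2 : η * S ≤ η * 1 := mul_le_mul_of_nonneg_left h1 hη0.le
    linarith
  have hc : ‖c‖ ≤ 3 := by
    have h1 := norm_add_le (c - u') u'
    rw [sub_add_cancel] at h1
    have h2 : β ^ 4 ≤ 1 := pow_le_one₀ hb0.le hb1
    linarith
  have ha0 : 0 < nm a := by
    rcases (nm_nonneg a).lt_or_eq with h | h
    · exact h
    · exfalso
      apply hc4
      have h1 : a = 0 := (nm_eq_zero a).1 h.symm
      rw [h1]
      simp [pr]
  have hyn : nm y ≤ CY * σ * w b := by rw [hy]; exact hY b hb c hc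
  have hchi : ‖chi a G - ee a y‖ ≤ 100 * η * (CY * σ * w b / nm a) := by
    unfold chi ee
    rw [← nm_sq']
    exact hc5
  have hee : ‖ee a y‖ ≤ CY * σ * w b / nm a := by
    unfold ee
    rw [← nm_sq', norm_div, Complex.norm_real, Real.norm_of_nonneg (by positivity),
      div_le_div_iff₀ (by positivity) ha0]
    have h1 := wd_le a y
    calc ‖wd a y‖ * nm a ≤ nm a * nm y * nm a := mul_le_mul_of_nonneg_right h1 ha0.le
      _ ≤ nm a * (CY * σ * w b) * nm a := by gcongr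
      _ = CY * σ * w b * nm a ^ 2 := by ring
  have hx0 : 0 ≤ σ * w b / nm a := by positivity
  refine ⟨c, hcS.trans (by linarith), hc2, ?_, ?_, ?_, ?_⟩
  · rw [← ha, ← hG, ← hy]
    refine hchi.trans ?_
    calc 100 * η * (CY * σ * w b / nm a) = (100 * η * CY) * (σ * w b / nm a) := by ring
      _ ≤ β ^ 4 * (σ * w b / nm a) := mul_le_mul_of_nonneg_right h100 hx0
      _ = β ^ 4 * σ * w b / nm a := by ring
  · rw [← ha, ← hG]
    have h1 : wd a G = chi a G * pr G a := by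
      unfold chi
      rw [div_mul_cancel₀ _ hc4]
    have h2 : ‖chi a G‖ ≤ 2 * (CY * σ * w b / nm a) := by
      have h3 : ‖chi a G‖ ≤ ‖chi a G - ee a y‖ + ‖ee a y‖ := by
        have := norm_add_le (chi a G - ee a y) (ee a y)
        rwa [sub_add_cancel] at this
      have h4 : 100 * η ≤ 1 := h100'.trans (pow_le_one₀ hb0.le hb1)
      have h5 : 0 ≤ CY * σ * w b / nm a := by positivity
      nlinarith
    rw [h1, norm_mul]
    calc ‖chi a G‖ * ‖pr G a‖ ≤ (2 * (CY * σ * w b / nm a)) * (nm G * nm a) :=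
          mul_le_mul h2 (pr_le G a) (norm_nonneg _) (by positivity)
      _ = 2 * CY * σ * w b * nm G := by
          field_simp
  · rw [← ha, ← hG]
    have h1 := nm_rev G a
    nlinarith
  · rw [← ha, ← hG]
    have h1 := nm_rev a G
    rw [nm_sub_comm] at h1
    have h2 : (1 - η) * nm a ≤ nm G := by linarith
    have h3 : nm a ≤ (1 + 2 * η) * nm G := by
      have h4 : (1 + 2 * η) * ((1 - η) * nm a) ≤ (1 + 2 * η) * nm G :=
        mul_le_mul_of_nonneg_left h2 (by linarith)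
      have h5 : 1 ≤ (1 + 2 * η) * (1 - η) := by nlinarith
      nlinarith
    refine h3.trans (mul_le_mul_of_nonneg_right (by linarith) (nm_nonneg G))

end Pool.Agent.H44.SR
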