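import Pool.Agent.H70.PL.Def

/-!
SHARP RATE (MP_8f2e1c_an), pieces 3 and 4 (planar): definitions.

`hh e F u = (e ∧ F u) / ⟨F u, e⟩`: affine coordinate of the direction `F u` in the frame of the unit vector `e`.
`Kcv`: the relations between the constants used in piece 3 (`η = C L q`, relative radius), on top of `Kon`.
-/

set_option autoImplicit false

namespace Pool.Agent.H44.SR

open Pool.H70.SF Pool.Agent.H70.PL

/-- affine coordinate of the direction `F u` -/
noncomputable def hh (e : ℂ × ℂ) (F : ℂ → ℂ × ℂ) (u : ℂ) : ℂ := wd e (F u) / pr (F u) e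

/-- relations between the constants of piece 3 -/
structure Kcv (M L t τ q kap η : ℝ) : Prop where
  η1 : η ≤ 1 / 100
  ηq : 40000 * M ^ 2 * L * q ≤ η
  τq : 10000 * M * L * τ ≤ kap * t * q

end Pool.Agent.H44.SR
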