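import Pool.Agent.H44.DN.CNM

/-!
# SHARP RATE, piece 3: an inverse branch on a disc without critical values

Proof: the set `E` of all `u` in `ball u0 R` with `‖h u - h u0‖ < r` is open, `h : E → ball (h u0) r` is a local homeomorphism (derivative nonzero) and
proper (a limit of points of `E` whose images converge in the ball lies in `closedBall u0 R`, not on the sphere). So it is a covering map, the ball is
simply connected, lift the identity with base point `u0` (as in `Pool/Agent/H91/Fatou/Branch.lean`; or directly: take the supremum of the radii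
`ρ ≤ r` for which an inverse branch exists on `ball (h u0) ρ`). The lift is continuous, locally an inverse of `h`, so differentiable.
-/

set_option autoImplicit false

open Filter Topology Metric Set

namespace Pool.Agent.H44.SR

open Pool.Agent.H44.DN in
theorem inv_branch {h : ℂ → ℂ} {u0 : ℂ} {R r : ℝ} (hR : 0 < R) (hr : 0 < r) {U : Set ℂ}
    (hU : IsOpen U) (hsub : closedBall u0 R ⊆ U) (hh : DifferentiableOn ℂ h U)
    (hs : ∀ u ∈ sphere u0 R, r ≤ ‖h u - h u0‖)
    (hd : ∀ u ∈ ball u0 R, ‖h u - h u0‖ < r → deriv h u ≠ 0) :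
    ∃ g : ℂ → ℂ, DifferentiableOn ℂ g (ball (h u0) r) ∧ g (h u0) = u0 ∧
      ∀ z ∈ ball (h u0) r, g z ∈ ball u0 R ∧ h (g z) = z := by
  have hsub2 : ball u0 R ⊆ U := ball_subset_closedBall.trans hsub
  have hf : DifferentiableOn ℂ h (ball u0 R) := hh.mono hsub2
  have hid : DifferentiableOn ℂ (id : ℂ → ℂ) (ball (h u0) r) := differentiableOn_id
  have hid' : ∀ w ∈ ball (h u0) r, deriv (id : ℂ → ℂ) w ≠ 0 := by
    intro w _
    rw [deriv_id]
    exact one_ne_zero
  have hd0 : deriv h u0 ≠ 0 := hd u0 (mem_ball_self hR) (by rw [sub_self, norm_zero]; exact hr)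
  rcases sol_max isOpen_ball hf hr hid hid' (mem_ball_self hR) rfl hd0 with
    ⟨g, hg0, hg1, hg2⟩ | ⟨ρ, b, g, hρ, hρr, hb, hg0, hsol, hno⟩
  · exact ⟨g, hg1, hg0, hg2⟩
  · exfalso
    apply hno
    have hbr : b ∈ ball (h u0) r := by
      rw [mem_ball, dist_eq_norm, hb]
      exact hρr
    have hbc : b ∈ closure (ball (h u0) ρ) := by
      rw [closure_ball _ hρ.ne', mem_closedBall, dist_eq_norm, hb]
    obtain ⟨w, hw, hwb⟩ := mem_closure_iff_seq_limit.1 hbc
    have hcb : ∀ n, g (w n) ∈ closedBall u0 R := fun n =>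
      ball_subset_closedBall (hsol.2 (w n) (hw n)).1
    obtain ⟨V, hV, φ, hφ, hlim⟩ := (isCompact_closedBall u0 R).tendsto_subseq hcb
    have hhV : ContinuousAt h V := (hh.differentiableAt (hU.mem_nhds (hsub hV))).continuousAt
    have h1 : Tendsto (fun n => h (g (w (φ n)))) atTop (𝓝 (h V)) := hhV.tendsto.comp hlim
    have h2 : (fun n => h (g (w (φ n)))) = fun n => w (φ n) := by
      funext n
      exact (hsol.2 (w (φ n)) (hw (φ n))).2
    have hwφ : Tendsto (fun n => w (φ n)) atTop (𝓝 b) := hwb.comp hφ.tendsto_atTop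
    rw [h2] at h1
    have hVb : h V = b := tendsto_nhds_unique h1 hwφ
    have hVn : ‖h V - h u0‖ = ρ := by rw [hVb, hb]
    have hVR : V ∈ ball u0 R := by
      rw [mem_closedBall] at hV
      rcases hV.lt_or_eq with h3 | h3
      · exact h3
      · have h4 := hs V h3
        rw [hVn] at h4
        linarith
    have hdV : deriv h V ≠ 0 := hd V hVR (by rw [hVn]; exact hρr)
    obtain ⟨s0, hs0, hs0b⟩ : ∃ s0 > 0, ball b s0 ⊆ ball (h u0) r :=
      Metric.isOpen_iff.1 isOpen_ball b hbr
    obtain ⟨s, g', hs1, hs2, hg'b, hg's⟩ := sol_loc (g := id) isOpen_ball hf hs0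
      (hid.mono hs0b) hVR hVb hdV
    refine ⟨s, g', hs1, hg's, ?_⟩
    obtain ⟨ψ, -, -, -, hψ⟩ := cnu_inv isOpen_ball hf hVR hdV
    -- a common value
    have hg'c : ContinuousAt g' b :=
      (hg's.1.differentiableAt (ball_mem_nhds b hs1)).continuousAt
    have e1 : ∀ᶠ n in atTop, ψ (h (g (w (φ n)))) = g (w (φ n)) := hlim.eventually hψ
    have e2 : ∀ᶠ n in atTop, ψ (h (g' (w (φ n)))) = g' (w (φ n)) := by
      have h3 : Tendsto (fun n => g' (w (φ n))) atTop (𝓝 (g' b)) := hg'c.tendsto.comp hwφ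
      rw [hg'b] at h3
      exact h3.eventually hψ
    have e3 : ∀ᶠ n in atTop, w (φ n) ∈ ball b s := hwφ.eventually (ball_mem_nhds b hs1)
    obtain ⟨n, h3, h4, h5⟩ := (e1.and (e2.and e3)).exists
    have h6 : g' (w (φ n)) = g (w (φ n)) := by
      rw [← h3, ← h4, (hg's.2 _ h5).2, (hsol.2 _ (hw (φ n))).2]
    have hsub3 : ball b s ∩ ball (h u0) ρ ⊆ ball b s := inter_subset_left
    have hsub4 : ball b s ∩ ball (h u0) ρ ⊆ ball (h u0) ρ := inter_subset_right
    have hsub5 : ball b s ∩ ball (h u0) ρ ⊆ ball (h u0) r :=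
      hsub4.trans (ball_subset_ball hρr.le)
    have key := sol_uniq (g := id) isOpen_ball hf (isOpen_ball.inter isOpen_ball)
      ((convex_ball b s).inter (convex_ball (h u0) ρ)).isPreconnected (hid.mono hsub5)
      (fun v hv => hid' v (hsub5 hv)) (h1 := g') (h2 := g)
      ⟨hg's.1.mono hsub3, fun v hv => hg's.2 v (hsub3 hv)⟩
      ⟨hsol.1.mono hsub4, fun v hv => hsol.2 v (hsub4 hv)⟩ ⟨h5, hw (φ n)⟩ h6
    exact fun v hv => key hv

end Pool.Agent.H44.SR
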