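import Pool.Agent.H44.SR.SIDE
import Pool.Agent.H44.SR.INV

/-!
SHARP RATE, piece 3, module EXC: existence of a critical point of `F0` near the critical point `u` of `F1`, with small coordinate (steps (ii), (iii)).

Let `h0 = hh e F0`, `h1 = hh e F1`, `r = 8 η s w / a0 > 0`, `e* = wd e (F1 u - F0 u) / a0`. Suppose no `c` with `‖c - u‖ ≤ η S`, `Jc F0 c = 0` has `‖h0 c‖ < r`.
`circ`: radius `ρ'`; `side`: `r ≤ ‖h0 v‖` for `‖v - u‖ = ρ'`; `h0 u = 0`. `inv_branch` with `R = ρ'`, `U = ball u (S/2)` (`η ≤ 1/100`),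
`deriv h0 = Jc F0 / (pr F0 e)²` nonzero where `‖h0‖ < r`: `g` on `ball 0 r`, `g 0 = u`, `h0 (g z) = z`, `g z ∈ ball u ρ'`.
`k = h1 ∘ g` satisfies `‖k z - z - e*‖ ≤ 4 η s w / a0 = r / 2` (`zero_step`). `k - id - e*` is differentiable on `ball 0 r`, bounded by `r/2`: its derivative
at `0` is at most `1/2` (Cauchy on the circles of radius `r' < r`, `r' → r`; `Complex.norm_deriv_le_of_forall_mem_sphere_norm_le`). But
`k' 0 = h1' u * g' 0 = 0` since `Jc F1 u = 0` (`hh_der`). So `1 ≤ 1/2`, contradiction.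
-/

set_option autoImplicit false

namespace Pool.Agent.H44.SR

open Pool.H70.SF Pool.Agent.H70.PL

theorem exc (M A L t τ q q1 qn k1 k2 kap S0 w η : ℝ) (m : ℕ) (hM : 1 ≤ M) (hA : 100 * M ≤ A)
    (hw : 0 < w) (hK : Kon A L t τ q q1 qn k1 k2 kap S0 m) (hη : Kcv M L t τ q kap η)
    (F F0 F1 : ℂ → ℂ × ℂ)
    (hF : Sta M w t k1 k2 qn F) (hP : Per τ w F F0) (hP1 : Per τ w F F1) (u : ℂ) (hu : ‖u‖ ≤ 1)
    (S : ℝ) (hS : Nsc F u S) (e : ℂ × ℂ) (he : Dir F0 u e) (s : ℝ) (hs : 0 < s) (hsτ : s ≤ τ)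
    (hY : ∀ v, ‖v‖ ≤ 3 → nm (F1 v - F0 v) ≤ s * w) (hJ : Jc F1 u = 0) :
    ∃ c, ‖c - u‖ ≤ η * S ∧ Jc F0 c = 0 ∧ ‖hh e F0 c‖ < 8 * η * (s * w / nm (F0 u)) := by
  by_contra hcon
  push Not at hcon
  obtain ⟨hη0, -⟩ := kap_le_eta hM hA hK hη
  have hη1 := hη.η1
  have hS0 : 0 < S := hS.1
  obtain ⟨-, ha0, -⟩ := bs_nm M A L t τ q q1 qn k1 k2 kap S0 w m hM hA hw hK F F0 hF hP u
    (by linarith)
  have hy0 : 0 < s * w / nm (F0 u) := div_pos (mul_pos hs hw) ha0
  set y : ℝ := s * w / nm (F0 u) with hydef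
  have hr : 0 < 8 * η * y := by positivity
  obtain ⟨ρ, hρ1, hρ2, hρ⟩ := circ M A L t τ q q1 qn k1 k2 kap S0 w η m hM hA hw hK hη F F0 hF hP
    u hu S hS e he.one
  have hηS : 0 < η * S := mul_pos hη0 hS0
  have hρ0 : 0 < ρ := by linarith
  have hρS : ρ < S / 2 := by nlinarith
  have hpr : ∀ v ∈ Metric.ball u (S / 2), pr (F0 v) e ≠ 0 := by
    intro v hv
    rw [Metric.mem_ball, dist_eq_norm] at hv
    obtain ⟨-, -, h3, -⟩ := bs_pr M A L t τ q q1 qn k1 k2 kap S0 w m hM hA hw hK F F0 hF hP u hu S hS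
      e he v hv.le
    intro h0
    rw [h0, norm_zero] at h3
    linarith
  have hpr1 : ∀ v ∈ Metric.ball u (S / 2), pr (F1 v) e ≠ 0 := by
    intro v hv
    rw [Metric.mem_ball, dist_eq_norm] at hv
    obtain ⟨h3, -⟩ := bs_two M A L t τ q q1 qn k1 k2 kap S0 w m hM hA hw hK F F0 F1 hF hP u hu S hS
      e he s hsτ hY v hv.le
    intro h0
    rw [h0, norm_zero] at h3
    linarith
  have hsub : Metric.closedBall u ρ ⊆ Metric.ball u (S / 2) := by
    intro v hv
    rw [Metric.mem_closedBall] at hv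
    rw [Metric.mem_ball]
    linarith
  have hh0u : hh e F0 u = 0 := by
    unfold hh
    rw [he.wdd, zero_div]
  have hsph : ∀ v ∈ Metric.sphere u ρ, 8 * η * y ≤ ‖hh e F0 v - hh e F0 u‖ := by
    intro v hv
    rw [mem_sphere_iff_norm] at hv
    rw [hh0u, sub_zero]
    exact side M A L t τ q q1 qn k1 k2 kap S0 w η m hM hA hw hK hη F F0 hF hP u hu S hS e he s hs.le
      hsτ v (by linarith) (hρ v hv)
  have hder : ∀ v ∈ Metric.ball u ρ, ‖hh e F0 v - hh e F0 u‖ < 8 * η * y →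
      deriv (hh e F0) v ≠ 0 := by
    intro v hv hv2
    rw [hh0u, sub_zero] at hv2
    have hv1 := hsub (Metric.ball_subset_closedBall hv)
    rw [(hh_der hP.dif he.one (hpr v hv1)).deriv]
    rw [Metric.mem_ball, dist_eq_norm] at hv
    have hJv : Jc F0 v ≠ 0 := by
      intro h0
      have := hcon v (by linarith) h0
      linarith
    exact div_ne_zero hJv (pow_ne_zero 2 (hpr v hv1))
  obtain ⟨g, hg1, hg2, hg3⟩ := inv_branch (h := hh e F0) (u0 := u) hρ0 hr Metric.isOpen_ball hsub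
    (hh_diff hP.dif he.one hpr) hsph hder
  rw [hh0u] at hg1 hg2 hg3
  set es : ℂ := wd e (F1 u - F0 u) / nm (F0 u) with hes
  have h0b : (0 : ℂ) ∈ Metric.ball (0 : ℂ) (8 * η * y) := Metric.mem_ball_self hr
  -- the function
  have hdiff : ∀ z ∈ Metric.ball (0 : ℂ) (8 * η * y),
      DifferentiableAt ℂ (fun z => hh e F1 (g z) - z - es) z := by
    intro z hz
    have h1 : DifferentiableAt ℂ g z := hg1.differentiableAt (Metric.isOpen_ball.mem_nhds hz)
    have h2 : DifferentiableAt ℂ (hh e F1) (g z) :=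
      (hh_der hP1.dif he.one
        (hpr1 (g z) (hsub (Metric.ball_subset_closedBall (hg3 z hz).1)))).differentiableAt
    have h3 : DifferentiableAt ℂ (fun z => hh e F1 (g z)) z := h2.comp z h1
    exact (h3.sub differentiableAt_id).sub_const es
  have hbd : ∀ z ∈ Metric.ball (0 : ℂ) (8 * η * y), ‖hh e F1 (g z) - z - es‖ ≤ 4 * η * y := by
    intro z hz
    have h1 := hg3 z hz
    have h2 : ‖g z - u‖ ≤ η * S := by
      have := h1.1
      rw [Metric.mem_ball, dist_eq_norm] at this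
      linarith
    have h3 := zero_step M A L t τ q q1 qn k1 k2 kap S0 w η m hM hA hw hK hη F F0 F1 hF hP hP1 u hu
      S hS e he s hs.le hsτ hY (g z) h2
    rw [h1.2] at h3
    exact h3
  have hr' : 0 < 6 * η * y := by positivity
  have hsub2 : Metric.closedBall (0 : ℂ) (6 * η * y) ⊆ Metric.ball (0 : ℂ) (8 * η * y) := by
    apply Metric.closedBall_subset_ball
    nlinarith
  have hcau : ‖deriv (fun z => hh e F1 (g z) - z - es) 0‖ ≤ 4 * η * y / (6 * η * y) := by
    apply Complex.norm_deriv_le_of_forall_mem_sphere_norm_le hr'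
    · apply DifferentiableOn.diffContOnCl
      rw [closure_ball _ hr'.ne']
      intro z hz
      exact (hdiff z (hsub2 hz)).differentiableWithinAt
    · intro z hz
      exact hbd z (hsub2 (Metric.sphere_subset_closedBall hz))
  have hval : deriv (fun z => hh e F1 (g z) - z - es) 0 = -1 := by
    have h1 : HasDerivAt g (deriv g 0) 0 :=
      (hg1.differentiableAt (Metric.isOpen_ball.mem_nhds h0b)).hasDerivAt
    have h2 : HasDerivAt (hh e F1) 0 (g 0) := by
      rw [hg2]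
      have h3 := hh_der hP1.dif he.one (hpr1 u (Metric.mem_ball_self (by linarith)))
      rw [hJ, zero_div] at h3
      exact h3
    have h4 : HasDerivAt (fun z => hh e F1 (g z)) (0 * deriv g 0) 0 := h2.comp 0 h1
    have h5 : HasDerivAt (fun z => hh e F1 (g z) - z - es) (0 * deriv g 0 - 1) 0 :=
      (h4.sub (hasDerivAt_id' 0)).sub_const es
    rw [h5.deriv]
    ring
  rw [hval, norm_neg, norm_one, le_div_iff₀ hr'] at hcau
  nlinarith

end Pool.Agent.H44.SR
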