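import Pool.Agent.H44.SR.Def
import Pool.Agent.H70.PL.Cau

/-!
SHARP RATE, pieces 3 and 4, module HDER: derivatives of the affine coordinate `hh e F`.

`hh_der`: quotient rule and `frame` (H70/PL/Pr) with `a = F u`, `b = F' u`: the numerator `wd e F' * pr F e - wd e F * pr F' e` is `wd F F'`.
`hh_der2`: near `u` the denominator does not vanish, so `deriv (hh e F) = Jc F / (pr F e)^2` on a neighbourhood; differentiate once more:
`h'' = J' / α² - 2 J α' / α³`.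
-/

set_option autoImplicit false

namespace Pool.Agent.H44.SR

open Pool.H70.SF Pool.Agent.H70.PL Metric

private theorem wd_der' {F : ℂ → ℂ × ℂ} (hF : Differentiable ℂ F) (e : ℂ × ℂ) (x : ℂ) :
    HasDerivAt (fun x => wd e (F x)) (wd e (deriv F x)) x := by
  unfold wd
  exact ((der_snd hF x).const_mul _).sub ((der_fst hF x).const_mul _)

theorem hh_der {F : ℂ → ℂ × ℂ} (hF : Differentiable ℂ F) {e : ℂ × ℂ} (he : nm e = 1) {u : ℂ}
    (h : pr (F u) e ≠ 0) : HasDerivAt (hh e F) (Jc F u / (pr (F u) e) ^ 2) u := by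
  have h1 := (wd_der' hF e u).div (pr_der hF e u) h
  have h2 : Jc F u = wd e (deriv F u) * pr (F u) e - wd e (F u) * pr (deriv F u) e := by
    unfold Jc
    rw [frame (F u) (deriv F u) e he]
    ring
  rw [h2]
  exact h1

theorem hh_diff {F : ℂ → ℂ × ℂ} (hF : Differentiable ℂ F) {e : ℂ × ℂ} (he : nm e = 1) {V : Set ℂ}
    (h : ∀ u ∈ V, pr (F u) e ≠ 0) : DifferentiableOn ℂ (hh e F) V :=
  fun u hu => (hh_der hF he (h u hu)).differentiableAt.differentiableWithinAt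

theorem hh_der2 {F : ℂ → ℂ × ℂ} (hF : Differentiable ℂ F) {e : ℂ × ℂ} (he : nm e = 1) {u : ℂ}
    (h : pr (F u) e ≠ 0) {B1 B2 : ℝ} (h1 : ‖deriv (Jc F) u‖ ≤ B1 * ‖Jc F u‖)
    (h2 : ‖pr (deriv F u) e‖ ≤ B2 * ‖pr (F u) e‖) :
    ‖deriv (deriv (hh e F)) u‖ ≤ (B1 + 2 * B2) * ‖deriv (hh e F) u‖ := by
  have hev : deriv (hh e F) =ᶠ[nhds u] fun x => Jc F x / (pr (F x) e) ^ 2 := by
    have hc : ContinuousAt (fun x => pr (F x) e) u := (dif_pr hF e).continuous.continuousAt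
    filter_upwards [hc.eventually_ne h] with x hx
    exact (hh_der hF he hx).deriv
  rw [hev.deriv_eq, (hh_der hF he h).deriv]
  have h3 : HasDerivAt (fun x => Jc F x / (pr (F x) e) ^ 2)
      ((deriv (Jc F) u * (pr (F u) e) ^ 2 - Jc F u * (2 * pr (F u) e * pr (deriv F u) e)) /
        ((pr (F u) e) ^ 2) ^ 2) u := by
    have h4 := ((dif_Jc hF u).hasDerivAt).div ((pr_der hF e u).pow 2) (pow_ne_zero 2 h)
    refine h4.congr_deriv ?_
    simp
  rw [h3.deriv, norm_div, norm_div]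
  have hα : 0 < ‖pr (F u) e‖ := norm_pos_iff.2 h
  rw [norm_pow, norm_pow, div_le_iff₀ (by positivity)]
  have h5 : (B1 + 2 * B2) * (‖Jc F u‖ / ‖pr (F u) e‖ ^ 2) * (‖pr (F u) e‖ ^ 2) ^ 2 =
      (B1 * ‖Jc F u‖) * ‖pr (F u) e‖ ^ 2 +
        2 * ‖Jc F u‖ * ‖pr (F u) e‖ * (B2 * ‖pr (F u) e‖) := by
    field_simp
  rw [h5]
  refine (norm_sub_le _ _).trans ?_
  rw [norm_mul, norm_mul, norm_mul, norm_mul, norm_pow, Complex.norm_ofNat]
  have h6 : ‖deriv (Jc F) u‖ * ‖pr (F u) e‖ ^ 2 ≤ (B1 * ‖Jc F u‖) * ‖pr (F u) e‖ ^ 2 :=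
    mul_le_mul_of_nonneg_right h1 (by positivity)
  have h7 : ‖Jc F u‖ * (2 * ‖pr (F u) e‖ * ‖pr (deriv F u) e‖) ≤
      2 * ‖Jc F u‖ * ‖pr (F u) e‖ * (B2 * ‖pr (F u) e‖) := by
    have h8 : 0 ≤ 2 * ‖Jc F u‖ * ‖pr (F u) e‖ := by positivity
    nlinarith [mul_le_mul_of_nonneg_left h2 h8]
  linarith

/-- difference of the coordinates of two maps -/
theorem hh_sub {F G : ℂ → ℂ × ℂ} {e : ℂ × ℂ} (he : nm e = 1) {u : ℂ} (h : pr (F u) e ≠ 0)
    (h' : pr (G u) e ≠ 0) : hh e G u - hh e F u = wd (F u) (G u) / (pr (F u) e * pr (G u) e) := by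
  rw [frame (F u) (G u) e he]
  unfold hh
  field_simp

private theorem nm_fr {a e : ℂ × ℂ} (he : nm e = 1) (h : pr a e ≠ 0) :
    nm a = ‖pr a e‖ * √(1 + ‖wd e a / pr a e‖ ^ 2) := by
  have h1 := lag a e
  have h2 : ‖wd a e‖ = ‖wd e a‖ := by
    rw [← norm_neg]
    congr 1
    unfold wd
    ring
  rw [he, h2] at h1
  have hα : 0 < ‖pr a e‖ := norm_pos_iff.2 h
  have h3 : 0 ≤ 1 + ‖wd e a / pr a e‖ ^ 2 := by positivity
  have h4 : nm a ^ 2 = (‖pr a e‖ * √(1 + ‖wd e a / pr a e‖ ^ 2)) ^ 2 := by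
    rw [mul_pow, Real.sq_sqrt h3, norm_div]
    field_simp
    linarith
  exact (pow_left_inj₀ (nm_nonneg _) (by positivity) two_ne_zero).1 h4

/-- distance of two directions -/
theorem hh_dist {a b e : ℂ × ℂ} (he : nm e = 1) (h : pr a e ≠ 0) (h' : pr b e ≠ 0) :
    ‖wd a b‖ / (nm a * nm b) = ‖wd e a / pr a e - wd e b / pr b e‖ /
      (√(1 + ‖wd e a / pr a e‖ ^ 2) * √(1 + ‖wd e b / pr b e‖ ^ 2)) := by
  have h1 : wd e a / pr a e - wd e b / pr b e = -(wd a b / (pr a e * pr b e)) := by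
    rw [frame a b e he]
    field_simp
    ring
  have hα : 0 < ‖pr a e‖ := norm_pos_iff.2 h
  have hβ : 0 < ‖pr b e‖ := norm_pos_iff.2 h'
  have hA : 0 < √(1 + ‖wd e a / pr a e‖ ^ 2) := Real.sqrt_pos.2 (by positivity)
  have hB : 0 < √(1 + ‖wd e b / pr b e‖ ^ 2) := Real.sqrt_pos.2 (by positivity)
  rw [h1, norm_neg, nm_fr he h, nm_fr he h', norm_div (wd a b), norm_mul]
  field_simp

end Pool.Agent.H44.SR
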