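import Mathlib

/-!
# SHARP RATE, piece 3: images of discs, existence of zeros

`surj_ball`: if the derivative varies by at most half of its value at `u`, the image of `ball u δ` contains the ball of radius `‖h' u‖ δ / 2` around
`h u` (apply `ApproximatesLinearOn` / or: for `z` in the small ball the map `w ↦ w - (h w - z) / h' u` is a contraction of a closed ball around `u`).
-/

set_option autoImplicit false

open Filter Topology Metric Set

namespace Pool.Agent.H44.SR

theorem surj_ball {h : ℂ → ℂ} {u : ℂ} {δ : ℝ} (hδ : 0 < δ) (hh : DifferentiableOn ℂ h (ball u δ))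
    (hne : deriv h u ≠ 0) (hd : ∀ v ∈ ball u δ, ‖deriv h v - deriv h u‖ ≤ 1 / 2 * ‖deriv h u‖) :
    ball (h u) (1 / 2 * ‖deriv h u‖ * δ) ⊆ h '' ball u δ := by
  intro z hz
  obtain ⟨a, ha⟩ : ∃ a, a = deriv h u := ⟨_, rfl⟩
  rw [← ha] at hz hne
  have ha0 : 0 < ‖a‖ := norm_pos_iff.2 hne
  rw [mem_ball, dist_eq_norm] at hz
  obtain ⟨s, hs⟩ : ∃ s : ℝ, s = 2 * ‖z - h u‖ / ‖a‖ := ⟨_, rfl⟩
  have hs0 : 0 ≤ s := by rw [hs]; positivity
  have hsδ : s < δ := by
    rw [hs, div_lt_iff₀ ha0]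
    linarith
  have hsub : closedBall u s ⊆ ball u δ := closedBall_subset_ball hsδ
  obtain ⟨Φ, hΦ⟩ : ∃ Φ : ℂ → ℂ, Φ = fun w => w - (h w - z) / a := ⟨_, rfl⟩
  have hder : ∀ w ∈ ball u δ, HasDerivAt Φ (1 - deriv h w / a) w := by
    intro w hw
    have h1 : HasDerivAt h (deriv h w) w :=
      (hh.differentiableAt (isOpen_ball.mem_nhds hw)).hasDerivAt
    rw [hΦ]
    exact (hasDerivAt_id w).sub ((h1.sub_const z).div_const a)
  have hlip : ∀ w ∈ closedBall u s, ∀ w' ∈ closedBall u s, ‖Φ w' - Φ w‖ ≤ 1 / 2 * ‖w' - w‖ := by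
    intro w hw w' hw'
    refine (convex_closedBall u s).norm_image_sub_le_of_norm_hasDerivWithin_le
      (f' := fun w => 1 - deriv h w / a)
      (fun x hx => (hder x (hsub hx)).hasDerivWithinAt) (fun x hx => ?_) hw hw'
    have h1 := hd x (hsub hx)
    rw [← ha] at h1
    have h2 : 1 - deriv h x / a = -((deriv h x - a) / a) := by
      field_simp
      ring
    rw [h2, norm_neg, norm_div, div_le_iff₀ ha0]
    exact h1
  have hmaps : MapsTo Φ (closedBall u s) (closedBall u s) := by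
    intro w hw
    rw [mem_closedBall, dist_eq_norm]
    have h1 := hlip u (mem_closedBall_self hs0) w hw
    have h2 : ‖w - u‖ ≤ s := by rwa [mem_closedBall, dist_eq_norm] at hw
    have h3 : Φ u - u = (z - h u) / a := by
      rw [hΦ]
      ring
    have h4 : ‖Φ u - u‖ = s / 2 := by
      rw [h3, norm_div, hs]
      ring
    calc ‖Φ w - u‖ = ‖(Φ w - Φ u) + (Φ u - u)‖ := by ring_nf
      _ ≤ ‖Φ w - Φ u‖ + ‖Φ u - u‖ := norm_add_le _ _
      _ ≤ s := by rw [h4]; linarith
  have hK : (1 / 2 : NNReal) < 1 := by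
    rw [← NNReal.coe_lt_coe]
    norm_num
  have hcon : ContractingWith (1 / 2 : NNReal) (hmaps.restrict Φ _ _) := by
    refine ⟨hK, LipschitzWith.of_dist_le_mul ?_⟩
    rintro ⟨w, hw⟩ ⟨w', hw'⟩
    change dist (Φ w) (Φ w') ≤ _ * dist w w'
    rw [dist_eq_norm, dist_eq_norm]
    have h1 := hlip w' hw' w hw
    simpa using h1
  obtain ⟨y, hy, hfix, -⟩ := hcon.exists_fixedPoint' isClosed_closedBall.isComplete hmaps
    (mem_closedBall_self hs0) (edist_ne_top _ _)
  refine ⟨y, hsub hy, ?_⟩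
  have h1 : Φ y = y := hfix
  rw [hΦ] at h1
  simp only at h1
  have h2 : (h y - z) / a = 0 := by
    have : y - (y - (h y - z) / a) = y - y := by rw [h1]
    rw [sub_self] at this
    rw [← this]
    ring
  rcases div_eq_zero_iff.1 h2 with h3 | h3
  · exact sub_eq_zero.1 h3
  · exact absurd h3 hne

/-- the same with a bound for `h'' / h'` -/
theorem surj_log {h : ℂ → ℂ} {u : ℂ} {δ B : ℝ} (hδ : 0 < δ) (hh : DifferentiableOn ℂ h (ball u δ))
    (hne : ∀ v ∈ ball u δ, deriv h v ≠ 0) (hB : 0 ≤ B)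
    (hd : ∀ v ∈ ball u δ, ‖deriv (deriv h) v‖ ≤ B * ‖deriv h v‖) (hBδ : B * δ ≤ 1 / 4) :
    (∀ v ∈ ball u δ, ‖deriv h v - deriv h u‖ ≤ 2 * B * ‖v - u‖ * ‖deriv h u‖) ∧
      (∀ v ∈ ball u δ, ∀ w ∈ ball u δ,
        ‖h v - h w - deriv h u * (v - w)‖ ≤ 2 * B * δ * ‖deriv h u‖ * ‖v - w‖) ∧
      ball (h u) (1 / 2 * ‖deriv h u‖ * δ) ⊆ h '' ball u δ := by
  have hu : u ∈ ball u δ := mem_ball_self hδ
  have hdd : DifferentiableOn ℂ (deriv h) (ball u δ) := hh.deriv isOpen_ball
  have h1 : ∀ v ∈ ball u δ, ‖deriv h v - deriv h u‖ ≤ 2 * B * ‖v - u‖ * ‖deriv h u‖ := by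
    intro v hv
    obtain ⟨r, hr⟩ : ∃ r : ℝ, r = ‖v - u‖ := ⟨_, rfl⟩
    have hr0 : 0 ≤ r := by rw [hr]; exact norm_nonneg _
    have hrδ : r < δ := by rw [hr, ← dist_eq_norm]; exact hv
    have hsub : closedBall u r ⊆ ball u δ := closedBall_subset_ball hrδ
    have hcont : ContinuousOn (fun w => ‖deriv h w‖) (closedBall u r) :=
      (hdd.continuousOn.mono hsub).norm
    obtain ⟨w0, hw0, hmax⟩ := (isCompact_closedBall u r).exists_isMaxOn
      ⟨u, mem_closedBall_self hr0⟩ hcont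
    obtain ⟨M, hM⟩ : ∃ M : ℝ, M = ‖deriv h w0‖ := ⟨_, rfl⟩
    have hM0 : 0 ≤ M := by rw [hM]; exact norm_nonneg _
    have hmv : ∀ w ∈ closedBall u r, ‖deriv h w - deriv h u‖ ≤ B * M * ‖w - u‖ := by
      intro w hw
      refine (convex_closedBall u r).norm_image_sub_le_of_norm_hasDerivWithin_le
        (f' := fun w => deriv (deriv h) w)
        (fun x hx => (hdd.differentiableAt
          (isOpen_ball.mem_nhds (hsub hx))).hasDerivAt.hasDerivWithinAt)
        (fun x hx => (hd x (hsub hx)).trans ?_) (mem_closedBall_self hr0) hw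
      have h2 : ‖deriv h x‖ ≤ ‖deriv h w0‖ := hmax hx
      rw [hM]
      exact mul_le_mul_of_nonneg_left h2 hB
    have hrB : B * r ≤ 1 / 4 := (mul_le_mul_of_nonneg_left hrδ.le hB).trans hBδ
    have h2 : M ≤ 4 / 3 * ‖deriv h u‖ := by
      have h3 := hmv w0 hw0
      have h4 : ‖w0 - u‖ ≤ r := by rwa [mem_closedBall, dist_eq_norm] at hw0
      have h5 : B * M * ‖w0 - u‖ ≤ B * M * r := mul_le_mul_of_nonneg_left h4 (by positivity)
      have h6 : B * M * r ≤ 1 / 4 * M := by nlinarith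
      have h7 : M ≤ ‖deriv h w0 - deriv h u‖ + ‖deriv h u‖ := by
        rw [hM]
        calc ‖deriv h w0‖ = ‖(deriv h w0 - deriv h u) + deriv h u‖ := by ring_nf
          _ ≤ _ := norm_add_le _ _
      linarith
    have h3 := hmv v (by rw [mem_closedBall, dist_eq_norm, hr])
    have h4 : B * M * ‖v - u‖ ≤ B * (4 / 3 * ‖deriv h u‖) * ‖v - u‖ := by gcongr
    have h5 : B * (4 / 3 * ‖deriv h u‖) * ‖v - u‖ ≤ 2 * B * ‖v - u‖ * ‖deriv h u‖ := by
      have h6 : 0 ≤ B * ‖v - u‖ * ‖deriv h u‖ := by positivity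
      nlinarith
    linarith
  refine ⟨h1, ?_, ?_⟩
  · intro v hv w hw
    have h2 := (convex_ball u δ).norm_image_sub_le_of_norm_hasDerivWithin_le
      (f := fun x => h x - deriv h u * x) (f' := fun x => deriv h x - deriv h u)
      (C := 2 * B * δ * ‖deriv h u‖)
      (fun x hx => by
        have h3 : HasDerivAt h (deriv h x) x :=
          (hh.differentiableAt (isOpen_ball.mem_nhds hx)).hasDerivAt
        have h4 := h3.sub ((hasDerivAt_id x).const_mul (deriv h u))
        rw [mul_one] at h4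
        exact h4.hasDerivWithinAt) (fun x hx => by
          refine (h1 x hx).trans ?_
          have h3 : ‖x - u‖ ≤ δ := by
            rw [← dist_eq_norm]
            exact (mem_ball.1 hx).le
          have h4 : 2 * B * ‖x - u‖ ≤ 2 * B * δ := mul_le_mul_of_nonneg_left h3 (by positivity)
          exact mul_le_mul_of_nonneg_right h4 (norm_nonneg _)) hw hv
    have h3 : h v - h w - deriv h u * (v - w) = h v - deriv h u * v - (h w - deriv h u * w) := by
      ring
    rw [h3]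
    exact h2
  · refine surj_ball hδ hh (hne u hu) fun v hv => (h1 v hv).trans ?_
    have h3 : ‖v - u‖ ≤ δ := by
      rw [← dist_eq_norm]
      exact (mem_ball.1 hv).le
    have h4 : 2 * B * ‖v - u‖ ≤ 2 * B * δ := mul_le_mul_of_nonneg_left h3 (by positivity)
    exact mul_le_mul_of_nonneg_right (by linarith) (norm_nonneg _)

end Pool.Agent.H44.SR
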