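import Pool.Agent.H44.SR.PLA

/-!
SHARP RATE, piece 4 (planar), module PLC: the expansion of a near map at a near point.

`K = ‖Jc F0 u‖ / nm (F0 u)²`, `a0 = nm (F0 u)`, `y = s w`, `e` with `Dir F0 u e`, `B = 200 M² L / R + 10 / S`, `x1 = 4 r B` (`≤ 2/5`), `x2 = (53/100) r / S`,
`x3 = s / (kap t)` (`≤ 1/100`, from `A τ ≤ kap k1 t`).
`pl_J`: `Jc F1 - Jc F0 = wd (F1 - F0) F1' + wd F0 (F1' - F0')` at `u1`; `nm (F1 - F0) ≤ y`, `nm (F1' - F0') ≤ y` (`cauP` for `F1 - F0`, radius 1),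
`nm (F0' u1) ≤ 3 a0 / S` (`bs_der`), `nm (F0 u1) ≤ (1 + x2) a0` (`bs_sch`), `y ≤ a0 / 1000`, `S ≤ 1`: `‖Jc F1 u1 - Jc F0 u1‖ ≤ 5 y a0 / S`, and
`y a0 / S ≤ 3 x3 ‖Jc F0 u‖` by `plA`.
`pl_exp`: `‖Jc F0 u1‖ = ‖pr (F0 u1) e‖² K (1 + O(x1))`, and `‖pr (F0 u1) e‖ = a0 (1 + O(x2))` (`bs_pr`). `|nm (F1 u1) - a0| ≤ y + x2 a0` (`nm_rev`, `bs_sch`) and
`y / a0 ≤ (1001/1000) x3`: `k1 t w ≤ nm (F u) ≤ 1000/999 a0` and `kap ≤ k1`.
So `‖Jc F1 u1‖ / nm (F1 u1)²` is between `K ((1 - x1) (1 - x2)² - 15 x3) / (1 + x2 + 1.01 x3)²` and `K ((1 + x1) (1 + x2)² + 15 x3) / (1 - x2 - 1.01 x3)²`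
(`plc_alg`, real numbers), and `x1 + x2 + x3 ≤ 800 M² L r / R + 41 r / S + x3`.
If the constant `1000` turns out too small use the margins in `pl_exp` (its proof gives `2 r B` in place of `4 r B` in the second statement).
-/

set_option autoImplicit false

namespace Pool.Agent.H44.SR

open Pool.H70.SF Pool.Agent.H70.PL Metric

theorem pl_J (M A L t τ q q1 qn k1 k2 kap S0 w : ℝ) (m : ℕ) (hM : 1 ≤ M) (hA : 100 * M ≤ A)
    (hw : 0 < w) (hK : Kon A L t τ q q1 qn k1 k2 kap S0 m) (F F0 F1 : ℂ → ℂ × ℂ)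
    (hF : Sta M w t k1 k2 qn F) (hP : Per τ w F F0) (hF1 : Differentiable ℂ F1) (u : ℂ)
    (hu : ‖u‖ ≤ 1) (S : ℝ) (hS : Nsc F u S) (s : ℝ) (hs : 0 ≤ s) (hsτ : s ≤ τ)
    (hY : ∀ v, ‖v‖ ≤ 3 → nm (F1 v - F0 v) ≤ s * w) (u1 : ℂ) (h1 : ‖u1 - u‖ ≤ S / 200) :
    ‖Jc F1 u1 - Jc F0 u1‖ ≤ 5 * (s * w) * nm (F0 u) / S := by
  have hS0 := hS.1
  have hS1 := hS.2.1
  obtain ⟨b1, b2, b3, b4, b5, b6⟩ := bs_nm M A L t τ q q1 qn k1 k2 kap S0 w m hM hA hw hK F F0 hF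
    hP u (by linarith)
  have hsw0 : 0 ≤ s * w := mul_nonneg hs hw.le
  have hsw : s * w ≤ nm (F0 u) / 1000 := (mul_le_mul_of_nonneg_right hsτ hw.le).trans b6
  have hu1 : ‖u1‖ ≤ 3 / 2 := by
    have := norm_add_le (u1 - u) u
    rw [sub_add_cancel] at this
    linarith
  have g1 := hY u1 (by linarith)
  have g2 : nm (deriv F1 u1 - deriv F0 u1) ≤ s * w := by
    have h2 := cauP (F := fun v => F1 v - F0 v) (hF1.sub hP.dif) u1 1 (s * w) one_pos fun v hv => by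
      refine hY v ?_
      have := norm_add_le (v - u1) u1
      rw [sub_add_cancel] at this
      linarith
    have h3 : deriv (fun v => F1 v - F0 v) u1 = deriv F1 u1 - deriv F0 u1 :=
      deriv_fun_sub (hF1 u1) (hP.dif u1)
    rwa [h3, div_one] at h2
  have g3 := (bs_der M A L t τ q q1 qn k1 k2 kap S0 w m hM hA hw hK F F0 hF hP u hu S hS u1
    (by linarith)).1
  have g4 := bs_sch M A L t τ q q1 qn k1 k2 kap S0 w m hM hA hw hK F F0 hF hP u hu S hS u1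
    (by linarith)
  have g5 : nm (F0 u1) ≤ 101 / 100 * nm (F0 u) := by
    have h2 := nm_rev (F0 u1) (F0 u)
    have h3 : ‖u1 - u‖ / S ≤ 1 / 200 := by
      rw [div_le_iff₀ hS0]
      linarith
    nlinarith
  have g6 : nm (deriv F1 u1) ≤ 3 * nm (F0 u) / S + s * w := by
    have h2 := nm_rev (deriv F1 u1) (deriv F0 u1)
    linarith
  have e1 : Jc F1 u1 - Jc F0 u1 =
      wd (F1 u1 - F0 u1) (deriv F1 u1) + wd (F0 u1) (deriv F1 u1 - deriv F0 u1) := by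
    simp only [Jc, wd, Prod.fst_sub, Prod.snd_sub]
    ring
  rw [e1]
  refine (norm_add_le _ _).trans ?_
  have h5 : ‖wd (F1 u1 - F0 u1) (deriv F1 u1)‖ ≤ (s * w) * (3 * nm (F0 u) / S + s * w) :=
    (wd_le _ _).trans (mul_le_mul g1 g6 (nm_nonneg _) hsw0)
  have h6 : ‖wd (F0 u1) (deriv F1 u1 - deriv F0 u1)‖ ≤ (101 / 100 * nm (F0 u)) * (s * w) :=
    (wd_le _ _).trans (mul_le_mul g5 g2 (nm_nonneg _) (by positivity))
  have h7 : nm (F0 u) ≤ nm (F0 u) / S := by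
    rw [le_div_iff₀ hS0]
    nlinarith
  obtain ⟨X, hX⟩ : ∃ X, X = nm (F0 u) / S := ⟨_, rfl⟩
  have e2 : 3 * nm (F0 u) / S = 3 * X := by rw [hX]; ring
  have e3 : 5 * (s * w) * nm (F0 u) / S = 5 * ((s * w) * X) := by rw [hX]; ring
  rw [e2] at h5
  rw [e3]
  rw [← hX] at h7
  have h8 : (s * w) * (s * w) ≤ (s * w) * (X / 1000) :=
    mul_le_mul_of_nonneg_left (by linarith) hsw0
  have h9 : (s * w) * nm (F0 u) ≤ (s * w) * X := mul_le_mul_of_nonneg_left h7 hsw0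
  have h10 : 0 ≤ (s * w) * X := mul_nonneg hsw0 (by linarith)
  nlinarith

private theorem plc_alg (K a J1 J0 n1 P p q x : ℝ) (hK : 0 ≤ K) (ha : 0 < a) (hp : 0 ≤ p)
    (hp' : p ≤ 1 / 4000) (hq : 0 ≤ q) (hq' : q ≤ 1 / 200) (hx : 0 ≤ x) (hx' : x ≤ 1 / 100)
    (hJu : J0 ≤ (1 + (800 * p + 40 * q)) * K * P ^ 2)
    (hJl : (1 - (800 * p + 40 * q)) * K * P ^ 2 ≤ J0) (hP1 : a * (1 - 53 / 100 * q) ≤ P)
    (hP2 : P ≤ a * (1 + 53 / 100 * q)) (h1 : J1 ≤ J0 + 15 * x * (K * a ^ 2))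
    (h2 : J0 - 15 * x * (K * a ^ 2) ≤ J1) (hn1 : a * (1 - (53 / 100 * q + 101 / 100 * x)) ≤ n1)
    (hn2 : n1 ≤ a * (1 + (53 / 100 * q + 101 / 100 * x))) :
    (1 - 1000 * (p + q + x)) * K ≤ J1 / n1 ^ 2 ∧
      J1 / n1 ^ 2 ≤ (1 + 1000 * (p + q + x)) * K := by
  obtain ⟨c, hc⟩ : ∃ c, c = 53 / 100 * q + 101 / 100 * x := ⟨_, rfl⟩
  rw [← hc] at hn1 hn2
  have hc0 : 0 ≤ c := by rw [hc]; positivity
  have hc1 : c ≤ 1 / 50 := by rw [hc]; linarith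
  have hn : 0 < n1 := lt_of_lt_of_le (mul_pos ha (by linarith)) hn1
  have hKa : 0 ≤ K * a ^ 2 := by positivity
  have hP0 : 0 < P := lt_of_lt_of_le (mul_pos ha (by linarith)) hP1
  have hPu : P ^ 2 ≤ a ^ 2 * (1 + 53 / 100 * q) ^ 2 := by
    rw [← mul_pow]
    exact pow_le_pow_left₀ hP0.le hP2 2
  have hPl : a ^ 2 * (1 - 53 / 100 * q) ^ 2 ≤ P ^ 2 := by
    rw [← mul_pow]
    exact pow_le_pow_left₀ (mul_nonneg ha.le (by linarith)) hP1 2
  have hnu : n1 ^ 2 ≤ a ^ 2 * (1 + c) ^ 2 := by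
    rw [← mul_pow]
    exact pow_le_pow_left₀ hn.le hn2 2
  have hnl : a ^ 2 * (1 - c) ^ 2 ≤ n1 ^ 2 := by
    rw [← mul_pow]
    exact pow_le_pow_left₀ (mul_nonneg ha.le (by linarith)) hn1 2
  constructor
  · rw [le_div_iff₀ (by positivity)]
    have hJ1 : K * a ^ 2 * ((1 - (800 * p + 40 * q)) * (1 - 53 / 100 * q) ^ 2 - 15 * x) ≤ J1 := by
      have h3 : (1 - (800 * p + 40 * q)) * K * (a ^ 2 * (1 - 53 / 100 * q) ^ 2) ≤
          (1 - (800 * p + 40 * q)) * K * P ^ 2 :=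
        mul_le_mul_of_nonneg_left hPl (mul_nonneg (by linarith) hK)
      calc K * a ^ 2 * ((1 - (800 * p + 40 * q)) * (1 - 53 / 100 * q) ^ 2 - 15 * x) =
            (1 - (800 * p + 40 * q)) * K * (a ^ 2 * (1 - 53 / 100 * q) ^ 2) -
              15 * x * (K * a ^ 2) := by ring
        _ ≤ J1 := by linarith
    have hnum : 1 - 800 * p - 42 * q - 15 * x ≤
        (1 - (800 * p + 40 * q)) * (1 - 53 / 100 * q) ^ 2 - 15 * x := by
      have h4 : 1 - 106 / 100 * q ≤ (1 - 53 / 100 * q) ^ 2 := by nlinarith [sq_nonneg q]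
      have h5 : (1 - (800 * p + 40 * q)) * (1 - 106 / 100 * q) ≤
          (1 - (800 * p + 40 * q)) * (1 - 53 / 100 * q) ^ 2 :=
        mul_le_mul_of_nonneg_left h4 (by linarith)
      have h6 : 1 - 800 * p - 42 * q ≤ (1 - (800 * p + 40 * q)) * (1 - 106 / 100 * q) := by
        nlinarith [mul_nonneg hp hq, mul_nonneg hq hq]
      linarith
    refine le_trans ?_ ((mul_le_mul_of_nonneg_left hnum hKa).trans hJ1)
    by_cases hE : 1 - 1000 * (p + q + x) ≤ 0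
    · have h3 : (1 - 1000 * (p + q + x)) * K * n1 ^ 2 ≤ 0 :=
        mul_nonpos_of_nonpos_of_nonneg (mul_nonpos_of_nonpos_of_nonneg hE hK) (sq_nonneg _)
      refine h3.trans (mul_nonneg hKa ?_)
      linarith
    · push Not at hE
      calc (1 - 1000 * (p + q + x)) * K * n1 ^ 2 ≤
            (1 - 1000 * (p + q + x)) * K * (a ^ 2 * (1 + c) ^ 2) :=
            mul_le_mul_of_nonneg_left hnu (mul_nonneg hE.le hK)
        _ = K * a ^ 2 * ((1 - 1000 * (p + q + x)) * (1 + c) ^ 2) := by ring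
        _ ≤ K * a ^ 2 * (1 - 800 * p - 42 * q - 15 * x) := by
            refine mul_le_mul_of_nonneg_left ?_ hKa
            have h4 : (1 + c) ^ 2 ≤ 1 + 3 * c := by nlinarith
            have h5 : (1 - 1000 * (p + q + x)) * (1 + c) ^ 2 ≤
                (1 - 1000 * (p + q + x)) * (1 + 3 * c) := mul_le_mul_of_nonneg_left h4 hE.le
            have h6 : (1 - 1000 * (p + q + x)) * (1 + 3 * c) ≤ 1 - 1000 * (p + q + x) + 3 * c := by
              nlinarith [mul_nonneg hp hc0, mul_nonneg hq hc0, mul_nonneg hx hc0]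
            rw [hc] at h6 h5
            rw [hc]
            linarith
  · rw [div_le_iff₀ (by positivity)]
    have hJ1 : J1 ≤ K * a ^ 2 * ((1 + (800 * p + 40 * q)) * (1 + 53 / 100 * q) ^ 2 + 15 * x) := by
      have h3 : (1 + (800 * p + 40 * q)) * K * P ^ 2 ≤
          (1 + (800 * p + 40 * q)) * K * (a ^ 2 * (1 + 53 / 100 * q) ^ 2) :=
        mul_le_mul_of_nonneg_left hPu (by positivity)
      calc J1 ≤ (1 + (800 * p + 40 * q)) * K * (a ^ 2 * (1 + 53 / 100 * q) ^ 2) +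
              15 * x * (K * a ^ 2) := by linarith
        _ = _ := by ring
    have hnum : (1 + (800 * p + 40 * q)) * (1 + 53 / 100 * q) ^ 2 + 15 * x ≤
        1 + 800 * p + 42 * q + 15 * x := by
      have h4 : (1 + 53 / 100 * q) ^ 2 ≤ 1 + 107 / 100 * q := by nlinarith
      have h5 : (1 + (800 * p + 40 * q)) * (1 + 53 / 100 * q) ^ 2 ≤
          (1 + (800 * p + 40 * q)) * (1 + 107 / 100 * q) :=
        mul_le_mul_of_nonneg_left h4 (by positivity)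
      have h6 : (1 + (800 * p + 40 * q)) * (1 + 107 / 100 * q) ≤ 1 + 800 * p + 42 * q := by
        have h7 : (800 * p + 40 * q) * q ≤ 2 / 5 * q := mul_le_mul_of_nonneg_right (by linarith) hq
        nlinarith
      linarith
    refine (hJ1.trans (mul_le_mul_of_nonneg_left hnum hKa)).trans ?_
    have h7 : (1 + 1000 * (p + q + x)) * K * (a ^ 2 * (1 - c) ^ 2) ≤
        (1 + 1000 * (p + q + x)) * K * n1 ^ 2 :=
      mul_le_mul_of_nonneg_left hnl (by positivity)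
    refine le_trans ?_ h7
    have h8 : (1 + 1000 * (p + q + x)) * K * (a ^ 2 * (1 - c) ^ 2) =
        K * a ^ 2 * ((1 + 1000 * (p + q + x)) * (1 - c) ^ 2) := by ring
    rw [h8]
    refine mul_le_mul_of_nonneg_left ?_ hKa
    have h4 : 1 - 2 * c ≤ (1 - c) ^ 2 := by nlinarith [sq_nonneg c]
    have h5 : (1 + 1000 * (p + q + x)) * (1 - 2 * c) ≤ (1 + 1000 * (p + q + x)) * (1 - c) ^ 2 :=
      mul_le_mul_of_nonneg_left h4 (by positivity)
    have h6 : 1 + 1000 * (p + q + x) - 40 * c ≤ (1 + 1000 * (p + q + x)) * (1 - 2 * c) := by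
      have h9 : (1 + 1000 * (p + q + x)) * c ≤ 17 * c :=
        mul_le_mul_of_nonneg_right (by linarith) hc0
      nlinarith
    rw [hc] at h6 h5
    rw [hc]
    linarith

theorem plC (M A L t τ q q1 qn k1 k2 kap S0 w : ℝ) (m : ℕ) (hM : 1 ≤ M) (hA : 100 * M ≤ A)
    (hw : 0 < w) (hK : Kon A L t τ q q1 qn k1 k2 kap S0 m) (hk : kap ≤ k1) (F F0 F1 : ℂ → ℂ × ℂ)
    (hF : Sta M w t k1 k2 qn F) (hP : Per τ w F F0) (hF1 : Differentiable ℂ F1) (u : ℂ)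
    (hu : ‖u‖ ≤ 1) (S : ℝ) (hS : Nsc F u S) (R : ℝ) (hqR : q ≤ R / 2) (hR : R ≤ 1 / 4)
    (hz : ∀ z, ‖z - u‖ < R → Jc F z ≠ 0) (s : ℝ) (hs : 0 ≤ s) (hsτ : s ≤ τ)
    (hY : ∀ v, ‖v‖ ≤ 3 → nm (F1 v - F0 v) ≤ s * w)
    (r : ℝ) (hr : 0 ≤ r) (hrR : 4000 * M ^ 2 * L * r ≤ R) (hrS : 200 * r ≤ S) (u1 : ℂ)
    (h1 : ‖u1 - u‖ ≤ r) :
    (1 - 1000 * M ^ 2 * (r * (L / R + 1 / S) + s / (kap * t))) * (‖Jc F0 u‖ / nm (F0 u) ^ 2) ≤
        ‖Jc F1 u1‖ / nm (F1 u1) ^ 2 ∧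
      ‖Jc F1 u1‖ / nm (F1 u1) ^ 2 ≤
        (1 + 1000 * M ^ 2 * (r * (L / R + 1 / S) + s / (kap * t))) *
          (‖Jc F0 u‖ / nm (F0 u) ^ 2) := by
  have hS0 := hS.1
  have hS1 := hS.2.1
  have ht : 0 < t := (Real.exp_pos _).trans_le hK.tL
  have hk1 : 0 < k1 := (Real.exp_pos _).trans_le hK.k1L
  have hkap : 0 < kap := (Real.exp_pos _).trans_le hK.kapL
  have hL : 1 ≤ L := hK.L1
  have hq0 : 0 < q := by
    have h2 := hK.q1q
    have h3 := hK.q1p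
    have h4 : 0 < A * L * q1 := by
      have : 0 < A := by linarith
      positivity
    linarith
  have hR0 : 0 < R := by linarith
  obtain ⟨b1, b2, b3, b4, b5, b6⟩ := bs_nm M A L t τ q q1 qn k1 k2 kap S0 w m hM hA hw hK F F0 hF
    hP u (by linarith)
  obtain ⟨e, he⟩ := dir_ex b2
  have hexp := (pl_exp M A L t τ q q1 qn k1 k2 kap S0 w m hM hA hw hK F F0 hF hP u hu S hS R hqR hR
    hz e he r hr hrR hrS u1 u1 h1 h1).2
  have hpr := bs_pr M A L t τ q q1 qn k1 k2 kap S0 w m hM hA hw hK F F0 hF hP u hu S hS e he u1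
    (by linarith)
  have hpA := (plA M A L t τ q q1 qn k1 k2 kap S0 w m hM hA hw hK F F0 hF hP u hu S hS R hqR hR
    hz).1
  have hJ := pl_J M A L t τ q q1 qn k1 k2 kap S0 w m hM hA hw hK F F0 F1 hF hP hF1 u hu S hS s hs
    hsτ hY u1 (by linarith)
  have hsch := bs_sch M A L t τ q q1 qn k1 k2 kap S0 w m hM hA hw hK F F0 hF hP u hu S hS u1
    (by linarith)
  have hu13 : ‖u1‖ ≤ 3 := by
    have := norm_add_le (u1 - u) u
    rw [sub_add_cancel] at this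
    linarith
  have hY1 := hY u1 hu13
  have hlow := hF.low u (by linarith)
  obtain ⟨a, ha⟩ : ∃ a, a = nm (F0 u) := ⟨_, rfl⟩
  obtain ⟨K, hKe⟩ : ∃ K, K = ‖Jc F0 u‖ / nm (F0 u) ^ 2 := ⟨_, rfl⟩
  obtain ⟨P, hPe⟩ : ∃ P, P = ‖pr (F0 u1) e‖ := ⟨_, rfl⟩
  obtain ⟨p, hp⟩ : ∃ p, p = M ^ 2 * L * r / R := ⟨_, rfl⟩
  obtain ⟨y, hy⟩ : ∃ y, y = r / S := ⟨_, rfl⟩
  obtain ⟨x, hx⟩ : ∃ x, x = s / (kap * t) := ⟨_, rfl⟩
  have hK0 : 0 ≤ K := by rw [hKe]; positivity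
  have ha0 : 0 < a := by rw [ha]; exact b2
  have hp0 : 0 ≤ p := by rw [hp]; positivity
  have hp1 : p ≤ 1 / 4000 := by
    rw [hp, div_le_iff₀ hR0]
    linarith
  have hy0 : 0 ≤ y := by rw [hy]; positivity
  have hy1 : y ≤ 1 / 200 := by
    rw [hy, div_le_iff₀ hS0]
    linarith
  have hx0 : 0 ≤ x := by rw [hx]; positivity
  have hkt : 0 < kap * t := mul_pos hkap ht
  have hsx : s = x * (kap * t) := by
    rw [hx]
    field_simp
  have hx1 : x ≤ 1 / 100 := by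
    rw [hx, div_le_iff₀ hkt]
    have h2 := hK.τk
    have h3 := hK.k1b
    have h4 : kap * k1 * t ≤ kap * t := by
      have : kap * k1 * t = k1 * (kap * t) := by ring
      rw [this]
      nlinarith
    have h5 : 100 * τ ≤ A * τ := mul_le_mul_of_nonneg_right (by linarith) hK.τ0
    linarith
  have hKa : K * a ^ 2 = ‖Jc F0 u‖ := by
    rw [hKe, ha]
    field_simp
  have hpn : pr (F0 u1) e ≠ 0 := by
    intro h0
    have h2 := hpr.2.2.1
    rw [h0, norm_zero] at h2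
    linarith
  have hP0 : 0 < P := by rw [hPe]; exact norm_pos_iff.2 hpn
  have hru : ‖u1 - u‖ / S ≤ y := by
    rw [hy]
    exact div_le_div_of_nonneg_right h1 hS0.le
  -- the Jacobian of `F0` at `u1`
  have e1 : ‖Jc F0 u1 / pr (F0 u1) e ^ 2‖ = ‖Jc F0 u1‖ / P ^ 2 := by
    rw [norm_div, norm_pow, hPe]
  have e2 : ‖Jc F0 u / (nm (F0 u) : ℂ) ^ 2‖ = K := by
    rw [norm_div, norm_pow, Complex.norm_real, Real.norm_of_nonneg (nm_nonneg _), hKe]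
  have e3 : 4 * (r * (200 * M ^ 2 * L / R + 10 / S)) = 800 * p + 40 * y := by
    rw [hp, hy]
    ring
  rw [e3, ← hKe] at hexp
  have h2 := norm_sub_norm_le (Jc F0 u1 / pr (F0 u1) e ^ 2) (Jc F0 u / (nm (F0 u) : ℂ) ^ 2)
  have h3 := norm_sub_norm_le (Jc F0 u / (nm (F0 u) : ℂ) ^ 2) (Jc F0 u1 / pr (F0 u1) e ^ 2)
  rw [norm_sub_rev (Jc F0 u / (nm (F0 u) : ℂ) ^ 2), e1, e2] at h3
  rw [e1, e2] at h2
  have hJu : ‖Jc F0 u1‖ ≤ (1 + (800 * p + 40 * y)) * K * P ^ 2 := by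
    have h4 : ‖Jc F0 u1‖ / P ^ 2 ≤ (1 + (800 * p + 40 * y)) * K := by linarith
    rwa [div_le_iff₀ (by positivity)] at h4
  have hJl : (1 - (800 * p + 40 * y)) * K * P ^ 2 ≤ ‖Jc F0 u1‖ := by
    have h4 : (1 - (800 * p + 40 * y)) * K ≤ ‖Jc F0 u1‖ / P ^ 2 := by linarith
    rwa [le_div_iff₀ (by positivity)] at h4
  -- the coordinate
  have h5 := hpr.1
  have h6 := norm_sub_norm_le (pr (F0 u1) e) (nm (F0 u) : ℂ)
  have h7 := norm_sub_norm_le (nm (F0 u) : ℂ) (pr (F0 u1) e)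
  rw [norm_sub_rev (nm (F0 u) : ℂ)] at h7
  rw [Complex.norm_real, Real.norm_of_nonneg (nm_nonneg _), ← hPe, ← ha] at h6 h7
  rw [← ha] at h5
  have h8 : 53 / 100 * (‖u1 - u‖ / S) * a ≤ 53 / 100 * y * a := by
    refine mul_le_mul_of_nonneg_right ?_ ha0.le
    linarith
  have hP1 : a * (1 - 53 / 100 * y) ≤ P := by linarith
  have hP2 : P ≤ a * (1 + 53 / 100 * y) := by linarith
  -- the Jacobian of `F1`
  have h9 : 5 * (s * w) * nm (F0 u) / S ≤ 15 * x * (K * a ^ 2) := by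
    rw [← hKe, ← ha] at hpA
    rw [← ha]
    have h10 : kap * t * w ≤ K * S * (3 * a) := by
      rwa [div_le_iff₀ (by positivity)] at hpA
    rw [div_le_iff₀ hS0, hsx]
    calc 5 * (x * (kap * t) * w) * a = 5 * x * a * (kap * t * w) := by ring
      _ ≤ 5 * x * a * (K * S * (3 * a)) := mul_le_mul_of_nonneg_left h10 (by positivity)
      _ = 15 * x * (K * a ^ 2) * S := by ring
  have h11 := norm_sub_norm_le (Jc F1 u1) (Jc F0 u1)
  have h12 := norm_sub_norm_le (Jc F0 u1) (Jc F1 u1)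
  rw [norm_sub_rev (Jc F0 u1)] at h12
  -- the norm of `F1`
  have hsw : s * w ≤ 101 / 100 * x * a := by
    have h13 : k1 * t * w ≤ 1000 / 999 * a := by
      rw [ha]
      linarith
    rw [hsx]
    have h14 : kap * t * w ≤ k1 * t * w := by
      refine mul_le_mul_of_nonneg_right (mul_le_mul_of_nonneg_right hk ht.le) hw.le
    calc x * (kap * t) * w = x * (kap * t * w) := by ring
      _ ≤ x * (1000 / 999 * a) := mul_le_mul_of_nonneg_left (h14.trans h13) hx0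
      _ ≤ 101 / 100 * x * a := by nlinarith [mul_nonneg hx0 ha0.le]
  rw [← ha] at hsch
  have h15 := nm_rev (F1 u1) (F0 u1)
  have h16 := nm_rev (F0 u1) (F1 u1)
  rw [nm_sub_comm (F0 u1) (F1 u1)] at h16
  have h17 := nm_rev (F0 u1) (F0 u)
  have h18 := nm_rev (F0 u) (F0 u1)
  rw [nm_sub_comm (F0 u) (F0 u1)] at h18
  rw [← ha] at h17 h18
  have hn1 : a * (1 - (53 / 100 * y + 101 / 100 * x)) ≤ nm (F1 u1) := by linarith
  have hn2 : nm (F1 u1) ≤ a * (1 + (53 / 100 * y + 101 / 100 * x)) := by linarith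
  have hfin := plc_alg K a ‖Jc F1 u1‖ ‖Jc F0 u1‖ (nm (F1 u1)) P p y x hK0 ha0 hp0 hp1 hy0 hy1 hx0
    hx1 hJu hJl hP1 hP2 (by linarith) (by linarith) hn1 hn2
  rw [← hKe]
  have hE : p + y + x ≤ M ^ 2 * (r * (L / R + 1 / S) + s / (kap * t)) := by
    rw [← hx]
    have hM2 : 1 ≤ M ^ 2 := by nlinarith
    have e4 : M ^ 2 * (r * (L / R + 1 / S) + x) = p + M ^ 2 * y + M ^ 2 * x := by
      rw [hp, hy]
      ring
    rw [e4]
    nlinarith [mul_nonneg (sub_nonneg.2 hM2) hy0, mul_nonneg (sub_nonneg.2 hM2) hx0]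
  have hEK := mul_le_mul_of_nonneg_right hE hK0
  obtain ⟨E, hEe⟩ : ∃ E, E = M ^ 2 * (r * (L / R + 1 / S) + s / (kap * t)) := ⟨_, rfl⟩
  have e5 : 1000 * M ^ 2 * (r * (L / R + 1 / S) + s / (kap * t)) = 1000 * E := by
    rw [hEe]
    ring
  rw [e5]
  rw [← hEe] at hEK
  constructor
  · refine le_trans ?_ hfin.1
    linarith
  · refine hfin.2.trans ?_
    linarith

end Pool.Agent.H44.SR
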