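import Pool.Agent.H44.SR.CIRC
import Pool.Agent.H44.SR.SUR

/-!
SHARP RATE, piece 3, module SIDE: on the circle the coordinate `hh e F0` is at least `r` (end of step (i)).

Let `h0 = hh e F0`, `a0 = nm (F0 u)`, `δ = q S / (48 M L)`. On `ball u' δ` (contained in `‖v - u‖ ≤ S/2`): `h0' = Jc F0 / (pr F0 e)²`,
`‖h0'‖ ≥ (kap t w a0 / (10 S)) / (1.3 a0)² ≥ kap t w / (17 a0 S)` (`circ_low`, `bs_pr`), and by `hh_der2`, `circ_log`, `bs_pr`:
`‖h0''‖ ≤ (8 M L / (q S) + 10 / S) ‖h0'‖ ≤ (12 M L / (q S)) ‖h0'‖` (`q ≤ 1/8`), so `B δ = 1/4`: `surj_log`: the image of the ball contains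
`ball (h0 u') (‖h0' u'‖ δ / 2)`. If `‖h0 u'‖ < r := 8 η s w / a0` then `0` is in this ball, as `‖h0' u'‖ δ / 2 ≥ kap t w q / (1632 M L a0) ≥ r`
(`10000 M L τ ≤ kap t q`, `s ≤ τ`, `η ≤ 1/100`), so `wd e (F0 z) = 0` for some `z` with `‖z - u'‖ < δ ≤ 8 q S`: contradiction.
-/

set_option autoImplicit false

namespace Pool.Agent.H44.SR

open Pool.H70.SF Pool.Agent.H70.PL

theorem side (M A L t τ q q1 qn k1 k2 kap S0 w η : ℝ) (m : ℕ) (hM : 1 ≤ M) (hA : 100 * M ≤ A)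
    (hw : 0 < w) (hK : Kon A L t τ q q1 qn k1 k2 kap S0 m) (hη : Kcv M L t τ q kap η)
    (F F0 : ℂ → ℂ × ℂ) (hF : Sta M w t k1 k2 qn F) (hP : Per τ w F F0) (u : ℂ) (hu : ‖u‖ ≤ 1)
    (S : ℝ) (hS : Nsc F u S) (e : ℂ × ℂ) (he : Dir F0 u e) (s : ℝ) (hs : 0 ≤ s) (hsτ : s ≤ τ)
    (u' : ℂ) (hu' : ‖u' - u‖ ≤ η * S)
    (hz : ∀ z, ‖z - u'‖ ≤ 8 * q * S → Jc F z ≠ 0 ∧ wd e (F0 z) ≠ 0) :
    8 * η * (s * w / nm (F0 u)) ≤ ‖hh e F0 u'‖ := by
  have hM0 : 0 < M := by linarith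
  have hL0 : 0 < L := by linarith [hK.L1]
  have hA0 : 0 < A := by linarith
  have hS0 : 0 < S := hS.1
  have hq0 : 0 < q := lt_of_lt_of_le (mul_pos (mul_pos hA0 hL0) hK.q1p) hK.q1q
  have hkap : 0 < kap := lt_of_lt_of_le (Real.exp_pos _) hK.kapL
  have ht0 : 0 < t := lt_of_lt_of_le (Real.exp_pos _) hK.tL
  have hML : 1 ≤ M * L := by nlinarith [hK.L1]
  have hη0 : 0 < η := lt_of_lt_of_le (by positivity) hη.ηq
  have hη1 := hη.η1
  have hq8 := hK.q1'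
  obtain ⟨-, ha0, -⟩ := bs_nm M A L t τ q q1 qn k1 k2 kap S0 w m hM hA hw hK F F0 hF hP u
    (by linarith)
  have hzJ : ∀ z, ‖z - u'‖ ≤ 8 * q * S → Jc F z ≠ 0 := fun z h => (hz z h).1
  obtain ⟨δ, hδ⟩ : ∃ δ : ℝ, δ = q * S / (48 * M * L) := ⟨_, rfl⟩
  have hδ0 : 0 < δ := by rw [hδ]; positivity
  have hqS : 0 < q * S := mul_pos hq0 hS0
  have hδq : δ ≤ q * S / 48 := by
    rw [hδ]
    apply div_le_div_of_nonneg_left hqS.le (by norm_num)
    nlinarith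
  have hqSle : q * S ≤ S / 8 := by nlinarith
  have hηS : η * S ≤ S / 100 := by nlinarith
  -- on the ball
  have hbu : ∀ v ∈ Metric.ball u' δ, ‖v - u'‖ ≤ 2 * q * S ∧ ‖v - u‖ ≤ S / 2 := by
    intro v hv
    rw [Metric.mem_ball, dist_eq_norm] at hv
    constructor
    · nlinarith
    · have h1 : ‖v - u‖ ≤ ‖v - u'‖ + ‖u' - u‖ := by
        have := norm_add_le (v - u') (u' - u)
        rwa [sub_add_sub_cancel] at this
      nlinarith
  have hpr : ∀ v ∈ Metric.ball u' δ, pr (F0 v) e ≠ 0 := by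
    intro v hv
    obtain ⟨-, -, h1, -⟩ := bs_pr M A L t τ q q1 qn k1 k2 kap S0 w m hM hA hw hK F F0 hF hP u hu
      S hS e he v (hbu v hv).2
    rw [← norm_pos_iff]
    linarith [mul_pos (by norm_num : (0 : ℝ) < 7 / 10) ha0]
  have hJ : ∀ v ∈ Metric.ball u' δ, kap * t * w * nm (F0 u) / (10 * S) ≤ ‖Jc F0 v‖ := by
    intro v hv
    refine circ_low M A L t τ q q1 qn k1 k2 kap S0 w η m hM hA hw hK hη F F0 hF hP u hu S hS u'
      hu' hzJ v ?_
    have := (hbu v hv).1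
    nlinarith
  have hJ0 : ∀ v ∈ Metric.ball u' δ, Jc F0 v ≠ 0 := by
    intro v hv
    rw [← norm_pos_iff]
    exact lt_of_lt_of_le (by positivity) (hJ v hv)
  have hder : ∀ v ∈ Metric.ball u' δ, deriv (hh e F0) v = Jc F0 v / (pr (F0 v) e) ^ 2 :=
    fun v hv => (hh_der hP.dif he.one (hpr v hv)).deriv
  have hne : ∀ v ∈ Metric.ball u' δ, deriv (hh e F0) v ≠ 0 := by
    intro v hv
    rw [hder v hv]
    exact div_ne_zero (hJ0 v hv) (pow_ne_zero 2 (hpr v hv))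
  have hB0 : 0 ≤ 12 * M * L / (q * S) := by positivity
  have hdd : ∀ v ∈ Metric.ball u' δ, ‖deriv (deriv (hh e F0)) v‖ ≤
      12 * M * L / (q * S) * ‖deriv (hh e F0) v‖ := by
    intro v hv
    have h1 := circ_log M A L t τ q q1 qn k1 k2 kap S0 w η m hM hA hw hK hη F F0 hF hP u hu S hS u'
      hu' hzJ v (hbu v hv).1
    obtain ⟨-, -, -, -, h2⟩ := bs_pr M A L t τ q q1 qn k1 k2 kap S0 w m hM hA hw hK F F0 hF hP u
      hu S hS e he v (hbu v hv).2
    refine (hh_der2 hP.dif he.one (hpr v hv) h1 h2).trans ?_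
    apply mul_le_mul_of_nonneg_right _ (norm_nonneg _)
    have h3 : 2 * (5 / S) = 10 * q / (q * S) := by
      field_simp
      norm_num
    rw [h3, ← add_div]
    apply div_le_div_of_nonneg_right _ hqS.le
    nlinarith
  have hBδ : 12 * M * L / (q * S) * δ ≤ 1 / 4 := by
    rw [hδ]
    apply le_of_eq
    field_simp
    norm_num
  obtain ⟨-, -, hsurj⟩ := surj_log hδ0 (hh_diff hP.dif he.one hpr) hne hB0 hdd hBδ
  by_contra hcon
  rw [not_le] at hcon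
  have hu'm : u' ∈ Metric.ball u' δ := Metric.mem_ball_self hδ0
  -- size of the derivative
  have hd : kap * t * w / (17 * nm (F0 u) * S) ≤ ‖deriv (hh e F0) u'‖ := by
    rw [hder u' hu'm, norm_div, norm_pow]
    obtain ⟨-, -, -, h1, -⟩ := bs_pr M A L t τ q q1 qn k1 k2 kap S0 w m hM hA hw hK F F0 hF hP u hu
      S hS e he u' (hbu u' hu'm).2
    have h2 := hJ u' hu'm
    have h3 : 0 < ‖pr (F0 u') e‖ := norm_pos_iff.2 (hpr u' hu'm)
    rw [le_div_iff₀ (by positivity)]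
    have h4 : ‖pr (F0 u') e‖ ^ 2 ≤ 17 / 10 * nm (F0 u) ^ 2 := by nlinarith
    calc kap * t * w / (17 * nm (F0 u) * S) * ‖pr (F0 u') e‖ ^ 2
        ≤ kap * t * w / (17 * nm (F0 u) * S) * (17 / 10 * nm (F0 u) ^ 2) :=
          mul_le_mul_of_nonneg_left h4 (by positivity)
      _ = kap * t * w * nm (F0 u) / (10 * S) := by
          field_simp
      _ ≤ _ := h2
  have hr : 8 * η * (s * w / nm (F0 u)) ≤ 1 / 2 * ‖deriv (hh e F0) u'‖ * δ := by
    have h1 : 1 / 2 * (kap * t * w / (17 * nm (F0 u) * S)) * δ ≤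
        1 / 2 * ‖deriv (hh e F0) u'‖ * δ := by gcongr
    refine le_trans ?_ h1
    have h2 : 1 / 2 * (kap * t * w / (17 * nm (F0 u) * S)) * δ =
        kap * t * q / (1632 * (M * L)) * (w / nm (F0 u)) := by
      rw [hδ]
      field_simp
      norm_num
    have h3 : 8 * η * (s * w / nm (F0 u)) = 8 * η * s * (w / nm (F0 u)) := by ring
    rw [h2, h3]
    apply mul_le_mul_of_nonneg_right _ (by positivity)
    rw [le_div_iff₀ (by positivity)]
    have h4 := hη.τq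
    have h5 : 8 * η * s ≤ τ := by
      have h6 : 8 * η * s ≤ 8 / 100 * s := by nlinarith
      linarith
    have hτ0 : 0 ≤ τ := hK.τ0
    calc 8 * η * s * (1632 * (M * L)) ≤ τ * (1632 * (M * L)) :=
          mul_le_mul_of_nonneg_right h5 (by positivity)
      _ ≤ 10000 * M * L * τ := by
          have h7 : 0 ≤ τ * (M * L) := by positivity
          nlinarith
      _ ≤ _ := h4
  have h0 : (0 : ℂ) ∈ Metric.ball (hh e F0 u') (1 / 2 * ‖deriv (hh e F0) u'‖ * δ) := by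
    rw [Metric.mem_ball, dist_eq_norm, zero_sub, norm_neg]
    linarith
  obtain ⟨z, hzb, hz0⟩ := hsurj h0
  have h1 : wd e (F0 z) = 0 := by
    unfold hh at hz0
    rcases div_eq_zero_iff.1 hz0 with h | h
    · exact h
    · exact absurd h (hpr z hzb)
  refine (hz z ?_).2 h1
  have := (hbu z hzb).1
  nlinarith

end Pool.Agent.H44.SR
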