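import Pool.Agent.H44.SR.BASE

/-!
SHARP RATE, piece 3, module ZERO: step (0): the difference of the two coordinates is nearly constant near `u0`.

`h1 - h0 = (α y_b - b y_a) / (α (α + y_a))`, `α = pr (F0 v) e`, `b = wd e (F0 v)`, `y_a = pr (Y v) e`, `y_b = wd e (Y v)`, `Y = F1 - F0`
(from `hh_sub` or directly). With `a0 = nm (F0 u)`, `x = ‖v - u‖ / S ≤ η`, `y = s w`:
`|α - a0| ≤ 0.53 η a0`, `|b| ≤ 0.53 η a0` (`bs_pr`), `|y_a|, |y_b| ≤ y`, `|y_b(v) - y_b(u)| ≤ y ‖v - u‖ ≤ y η` (Cauchy for `Y` on discs of radius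
1, `mvP`; `‖v‖ + 1 ≤ 3`), `y / a0 ≤ 1.01 kap / A ≤ η / 10` (`bs_nm`; `kap ≤ qn ≤ q1 ≤ q ≤ η` from `Kon`, `Kcv`).
So `|h1 - h0 - y_b(u)/a0| ≤ (1/a0) (y η + 0.53 η y + y²/a0 + 0.53 η y) (1 + ..) ≤ 4 η y / a0`.
-/

set_option autoImplicit false

namespace Pool.Agent.H44.SR

open Pool.H70.SF Pool.Agent.H70.PL

/-- the small quantities are at most `η / 10` -/
theorem kap_le_eta {M A L t τ q q1 qn k1 k2 kap S0 η : ℝ} {m : ℕ} (hM : 1 ≤ M) (hA : 100 * M ≤ A)
    (hK : Kon A L t τ q q1 qn k1 k2 kap S0 m) (hη : Kcv M L t τ q kap η) :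
    0 < η ∧ kap ≤ q ∧ kap / A ≤ η / 100 ∧ q ≤ η / 40000 ∧ 0 < q ∧ 0 < kap ∧ 0 < t := by
  have hA1 : 1 ≤ A := by linarith
  have hA0 : 0 < A := by linarith
  have hL := hK.L1
  have hL0 : 0 < L := by linarith
  have ht : 0 < t := (Real.exp_pos _).trans_le hK.tL
  have hkap : 0 < kap := (Real.exp_pos _).trans_le hK.kapL
  have hqn : 0 < qn := (Real.exp_pos _).trans_le hK.qnL
  have hq1 := hK.q1p
  have hAL : 1 ≤ A * L := by nlinarith
  have hq1q : q1 ≤ q := by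
    have := hK.q1q
    nlinarith
  have hq : 0 < q := by linarith
  have hq8 := hK.q1'
  have hpow : q1 ^ m ≤ q1 := by
    calc q1 ^ m ≤ q1 ^ 1 := pow_le_pow_of_le_one hq1.le (by linarith) hK.m1
      _ = q1 := pow_one _
  have hm : (1 : ℝ) ≤ (m : ℝ) := by exact_mod_cast hK.m1
  have hqnq : qn ≤ q := by
    have h1 := hK.qnq
    have h2 : 1 ≤ A * (m : ℝ) := by nlinarith
    have h3 : qn ≤ A * (m : ℝ) * qn := by nlinarith
    linarith
  have hkq : kap ≤ q := by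
    have h1 := hK.kapq
    have h2 := hK.k2b
    have h3 : k2 * qn ≤ qn := by nlinarith
    have h4 : kap ≤ A * kap := by nlinarith
    linarith
  have hM2 : 1 ≤ M ^ 2 * L := by
    have : 1 ≤ M ^ 2 := by nlinarith
    nlinarith
  have hqη : q ≤ η / 40000 := by
    have h1 := hη.ηq
    have h2 : q ≤ M ^ 2 * L * q := by nlinarith
    nlinarith
  have hηp : 0 < η := by linarith
  refine ⟨hηp, hkq, ?_, hqη, hq, hkap, ht⟩
  have h1 : kap / A ≤ kap := div_le_self hkap.le hA1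
  linarith

private theorem zs_alg (α β b yb y0 : ℂ) (a0 η y : ℝ) (ha : 0 < a0) (hη : 0 < η) (hy : 0 ≤ y)
    (h1 : ‖α - a0‖ ≤ 53 / 100 * η * a0) (h2 : ‖b‖ ≤ 53 / 100 * η * a0) (h3 : 7 / 10 * a0 ≤ ‖α‖)
    (h4 : 69 / 100 * a0 ≤ ‖β‖) (h5 : ‖β - α‖ ≤ y) (h6 : ‖yb - y0‖ ≤ y * η) (h7 : ‖y0‖ ≤ y)
    (h8 : y ≤ 11 / 1000 * η * a0) :
    ‖(b + yb) / β - b / α - y0 / a0‖ ≤ 4 * η * (y / a0) := by
  have hα0 : 0 < ‖α‖ := by nlinarith
  have hβ0 : 0 < ‖β‖ := by nlinarith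
  have hα : α ≠ 0 := norm_pos_iff.1 hα0
  have hβ : β ≠ 0 := norm_pos_iff.1 hβ0
  have hac : (a0 : ℂ) ≠ 0 := by exact_mod_cast ha.ne'
  have e : (b + yb) / β - b / α - y0 / a0
      = ((yb - y0) / β - y0 * (β - a0) / (β * a0)) - b * (β - α) / (α * β) := by
    field_simp
    ring
  rw [e]
  have t1 : ‖(yb - y0) / β‖ ≤ y * η / (69 / 100 * a0) := by
    rw [norm_div]
    exact div_le_div₀ (by positivity) h6 (by positivity) h4
  have hna : ‖(a0 : ℂ)‖ = a0 := by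
    rw [Complex.norm_real, Real.norm_of_nonneg ha.le]
  have hβa : ‖β - a0‖ ≤ 541 / 1000 * η * a0 := by
    calc ‖β - a0‖ = ‖(β - α) + (α - a0)‖ := by rw [sub_add_sub_cancel]
      _ ≤ ‖β - α‖ + ‖α - a0‖ := norm_add_le _ _
      _ ≤ 541 / 1000 * η * a0 := by linarith
  have t2 : ‖y0 * (β - a0) / (β * a0)‖ ≤ y * (541 / 1000 * η * a0) / (69 / 100 * a0 * a0) := by
    rw [norm_div, norm_mul, norm_mul, hna]
    apply div_le_div₀ (by positivity) _ (by positivity) _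
    · exact mul_le_mul h7 hβa (norm_nonneg _) hy
    · exact mul_le_mul_of_nonneg_right h4 ha.le
  have t3 : ‖b * (β - α) / (α * β)‖ ≤ 53 / 100 * η * a0 * y / (7 / 10 * a0 * (69 / 100 * a0)) := by
    rw [norm_div, norm_mul, norm_mul]
    apply div_le_div₀ (by positivity) _ (by positivity) _
    · exact mul_le_mul h2 h5 (norm_nonneg _) (by positivity)
    · exact mul_le_mul h3 h4 (by positivity) (by positivity)
  have t4 := norm_sub_le ((yb - y0) / β - y0 * (β - a0) / (β * a0)) (b * (β - α) / (α * β))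
  have t5 := norm_sub_le ((yb - y0) / β) (y0 * (β - a0) / (β * a0))
  have e1 : y * η / (69 / 100 * a0) = 100 / 69 * (η * (y / a0)) := by
    field_simp
  have e2 : y * (541 / 1000 * η * a0) / (69 / 100 * a0 * a0) = 541 / 690 * (η * (y / a0)) := by
    field_simp
    ring
  have e3 : 53 / 100 * η * a0 * y / (7 / 10 * a0 * (69 / 100 * a0))
      = 530 / 483 * (η * (y / a0)) := by
    field_simp
    ring
  rw [e1] at t1
  rw [e2] at t2
  rw [e3] at t3
  have hp : 0 ≤ η * (y / a0) := by positivity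
  have e4 : 4 * η * (y / a0) = 4 * (η * (y / a0)) := by ring
  rw [e4]
  linarith

theorem zero_step (M A L t τ q q1 qn k1 k2 kap S0 w η : ℝ) (m : ℕ) (hM : 1 ≤ M) (hA : 100 * M ≤ A)
    (hw : 0 < w) (hK : Kon A L t τ q q1 qn k1 k2 kap S0 m) (hη : Kcv M L t τ q kap η)
    (F F0 F1 : ℂ → ℂ × ℂ)
    (hF : Sta M w t k1 k2 qn F) (hP : Per τ w F F0) (hP1 : Per τ w F F1) (u : ℂ) (hu : ‖u‖ ≤ 1)
    (S : ℝ) (hS : Nsc F u S) (e : ℂ × ℂ) (he : Dir F0 u e) (s : ℝ) (hs : 0 ≤ s) (hsτ : s ≤ τ)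
    (hY : ∀ v, ‖v‖ ≤ 3 → nm (F1 v - F0 v) ≤ s * w) (v : ℂ) (hv : ‖v - u‖ ≤ η * S) :
    ‖hh e F1 v - hh e F0 v - wd e (F1 u - F0 u) / nm (F0 u)‖ ≤ 4 * η * (s * w / nm (F0 u)) := by
  obtain ⟨hη0, hkq, hkA, hqη, hq, hkap, ht⟩ := kap_le_eta hM hA hK hη
  obtain ⟨hFu, ha0, hn1, hn2, hn3, hn4⟩ :=
    bs_nm M A L t τ q q1 qn k1 k2 kap S0 w m hM hA hw hK F F0 hF hP u (by linarith)
  have hS0 : 0 < S := hS.1
  have hS1 : S ≤ 1 := hS.2.1
  have hη1 : η ≤ 1 / 100 := hη.η1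
  have hvS : ‖v - u‖ ≤ S / 2 := by nlinarith
  have hvη : ‖v - u‖ ≤ η := by nlinarith
  have hx : ‖v - u‖ / S ≤ η := by rwa [div_le_iff₀ hS0]
  obtain ⟨b1, b2, b3, b4, b5⟩ :=
    bs_pr M A L t τ q q1 qn k1 k2 kap S0 w m hM hA hw hK F F0 hF hP u hu S hS e he v hvS
  obtain ⟨c1, c2, c3⟩ :=
    bs_two M A L t τ q q1 qn k1 k2 kap S0 w m hM hA hw hK F F0 F1 hF hP u hu S hS e he s hsτ hY v
      hvS
  have hv2 : ‖v‖ ≤ 3 := by
    have e1 : v = (v - u) + u := by ring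
    rw [e1]
    have := norm_add_le (v - u) u
    linarith
  have hy : 0 ≤ s * w := mul_nonneg hs hw.le
  have hYd : Differentiable ℂ (fun x => F1 x - F0 x) := hP1.dif.sub hP.dif
  have hlin : ∀ a b : ℂ × ℂ, wd e (a - b) = wd e a - wd e b := by
    intro a b
    simp only [wd, Prod.fst_sub, Prod.snd_sub]
    ring
  have hY1 : nm ((F1 v - F0 v) - (F1 u - F0 u)) ≤ (s * w) * ‖v - u‖ := by
    have hder : ∀ z, ‖z - u‖ ≤ ‖v - u‖ → nm (deriv (fun x => F1 x - F0 x) z) ≤ s * w := by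
      intro z hz
      have := cauP hYd z 1 (s * w) one_pos (fun x hx => by
        apply hY
        have e1 : x = (x - z) + ((z - u) + u) := by ring
        rw [e1]
        have h1 := norm_add_le (x - z) ((z - u) + u)
        have h2 := norm_add_le (z - u) u
        linarith)
      rwa [div_one] at this
    have := mvP hYd u ‖v - u‖ (s * w) hder v u le_rfl (by simp)
    exact this
  have key := zs_alg (pr (F0 v) e) (pr (F1 v) e) (wd e (F0 v)) (wd e (F1 v - F0 v))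
    (wd e (F1 u - F0 u)) (nm (F0 u)) η (s * w) ha0 hη0 hy
    (b1.trans (by
      apply mul_le_mul_of_nonneg_right _ ha0.le
      linarith))
    (b2.trans (by
      apply mul_le_mul_of_nonneg_right _ ha0.le
      linarith)) b3 c1
    (by
      rw [← pr_sub]
      have h1 := pr_le (F1 v - F0 v) e
      rw [he.one, mul_one] at h1
      exact h1.trans (hY v hv2))
    (by
      rw [← hlin]
      have h1 := wd_le e ((F1 v - F0 v) - (F1 u - F0 u))
      rw [he.one, one_mul] at h1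
      refine h1.trans (hY1.trans ?_)
      exact mul_le_mul_of_nonneg_left hvη hy)
    (by
      have h1 := wd_le e (F1 u - F0 u)
      rw [he.one, one_mul] at h1
      exact h1.trans (hY u (by linarith)))
    (by
      have h1 : s * w ≤ τ * w := mul_le_mul_of_nonneg_right hsτ hw.le
      have h2 : kap / A * nm (F u) ≤ η / 100 * nm (F u) :=
        mul_le_mul_of_nonneg_right hkA hFu.le
      have h3 : η / 100 * nm (F u) ≤ η / 100 * (1000 / 999 * nm (F0 u)) := by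
        apply mul_le_mul_of_nonneg_left _ (by positivity)
        linarith
      have h4 : 0 < η * nm (F0 u) := mul_pos hη0 ha0
      have h5 : η / 100 * (1000 / 999 * nm (F0 u)) ≤ 11 / 1000 * η * nm (F0 u) := by
        nlinarith
      linarith)
  have e1 : wd e (F0 v) + wd e (F1 v - F0 v) = wd e (F1 v) := by
    rw [hlin]
    ring
  rw [e1] at key
  exact key

end Pool.Agent.H44.SR
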